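import Mathlib.Data.Nat.Notation
import Pool.Agent.Helper82_Met.Data

/-!
# Kernel checks of the tables
-/

set_option autoImplicit false

namespace Pool.Agent.Helper82_Met

/-- `f i` holds for all `i < n`. -/
noncomputable def allTo (f : ℕ → Bool) (n : ℕ) : Bool :=
  Nat.rec (motive := fun _ => Bool) true (fun k ih => cond (f k) ih false) n

/-- The sum of `f i` over `i < n`. -/
noncomputable def sumTo (f : ℕ → ℕ) (n : ℕ) : ℕ :=
  Nat.rec (motive := fun _ => ℕ) 0 (fun k ih => Nat.add ih (f k)) n

/-- `x` is in the list. -/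
noncomputable def memb (x : ℕ) (L : List ℕ) : Bool :=
  List.rec (motive := fun _ => Bool) false (fun a _ ih => cond (Nat.beq x a) true ih) L

/-- Position of the pair `i < j`. -/
def tri (i j : ℕ) : ℕ := Nat.add (Nat.div (Nat.mul j (Nat.sub j 1)) 2) i

/-- Position of the pair `{a, b}` (from the table). -/
def sp (a b : ℕ) : ℕ := Nat.mod (Nat.shiftRight TP (Nat.mul 5 (Nat.add (Nat.mul 8 a) b))) 32

/-- Label digit. -/
def qd (w x : ℕ) : ℕ := Nat.mod (Nat.shiftRight w (Nat.mul 4 x)) 8

/-- Switching digit. -/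
def gd (w x : ℕ) : ℕ := Nat.mod (Nat.shiftRight w (Nat.add (Nat.mul 4 x) 3)) 2

/-- Check of one pair. -/
noncomputable def chkPair (c r' w x y : ℕ) : Bool :=
  cond (Nat.beq (qd w x) (qd w y)) false
    (Nat.beq (Nat.mod (Nat.add (Nat.shiftRight r' (tri x y))
      (Nat.add (Nat.shiftRight c (sp (qd w x) (qd w y))) (Nat.add (gd w x) (gd w y)))) 2) 0)

/-- Check of one certificate: the code `c` on `n` points is carried to `r'` by the relabelling
and switching encoded in `w`. -/
noncomputable def chk (n c r' w : ℕ) : Bool :=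
  cond (allTo (fun x => Nat.ble (Nat.succ (qd w x)) n) n)
    (allTo (fun y => allTo (fun x => chkPair c r' w x y) y) n) false

/-- The certificates in the list cover the extensions number `m`, `m+1`, … of `r`. -/
noncomputable def covers (n k M : ℕ) (R : List ℕ) (r : ℕ) (L : List (ℕ × ℕ × ℕ)) : ℕ → Bool :=
  List.rec (motive := fun _ => ℕ → Bool) (fun m => Nat.beq m M)
    (fun e _ ih m => cond (Nat.beq e.1 (Nat.add r (Nat.mul m (Nat.shiftLeft 2 k))))
      (cond (memb e.2.1 R) (cond (chk (Nat.succ n) e.1 e.2.1 e.2.2) (ih (Nat.succ m)) false) false)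
      false) L

/-- All entries of a table are fine. -/
noncomputable def okTable (n k M : ℕ) (R : List ℕ) (D : List (ℕ × List (ℕ × ℕ × ℕ))) : Bool :=
  List.rec (motive := fun _ => Bool) true
    (fun e _ ih => cond (Nat.ble (Nat.succ e.1) (Nat.shiftLeft 1 k))
      (cond (covers n k M R e.1 e.2 0) ih false) false) D

/-- Bit count of a number below `2 ^ 28`. -/
def pc28 (x : ℕ) : ℕ :=
  Nat.add (Nat.add (Nat.mod (Nat.shiftRight PT (Nat.mul 3 (Nat.mod x 128))) 8)
    (Nat.mod (Nat.shiftRight PT (Nat.mul 3 (Nat.mod (Nat.shiftRight x 7) 128))) 8))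
   (Nat.add (Nat.mod (Nat.shiftRight PT (Nat.mul 3 (Nat.mod (Nat.shiftRight x 14) 128))) 8)
    (Nat.mod (Nat.shiftRight PT (Nat.mul 3 (Nat.mod (Nat.shiftRight x 21) 128))) 8))

/-- Parity of a triple of a code, `0` for a positive triple. -/
def par3 (c i j k : ℕ) : ℕ :=
  Nat.mod (Nat.add (Nat.shiftRight c (tri i j)) (Nat.add (Nat.shiftRight c (tri i k))
    (Nat.shiftRight c (tri j k)))) 2

/-- Number of positive triples on the first `n` points. -/
noncomputable def posCount (n c : ℕ) : ℕ :=
  sumTo (fun k => sumTo (fun j => sumTo (fun i => Nat.sub 1 (par3 c i j k)) j) k) n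

/-- Star mask. -/
def TT' (m : ℕ) : ℕ := Nat.mod (Nat.shiftRight TT (Nat.mul 28 m)) 268435456

/-- Check of a kernel vector. -/
noncomputable def okY (c Y : ℕ) : Bool :=
  allTo (fun k => allTo (fun j => allTo (fun i =>
    cond (Nat.beq (par3 c i j k) 1) true
      (Nat.beq (Nat.add (Nat.mod (Nat.shiftRight Y (Nat.mul 3 (tri i j))) 8)
        (Nat.add (Nat.mod (Nat.shiftRight Y (Nat.mul 3 (tri i k))) 8)
          (Nat.mod (Nat.shiftRight Y (Nat.mul 3 (tri j k))) 8))) 6)) j) k) 9

/-- The vector is not the zero vector. -/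
noncomputable def nzY (Y : ℕ) : Bool :=
  cond (allTo (fun e => Nat.beq (Nat.mod (Nat.shiftRight Y (Nat.mul 3 e)) 8) 2) 36) false true

/-- Search for a certificate of the extension number `m` of `r`. -/
noncomputable def srch (r m : ℕ) (L : List (ℕ × ℕ)) : Bool :=
  List.rec (motive := fun _ => Bool) false
    (fun e _ ih => cond (Nat.beq e.1 m)
      (cond (okY (Nat.add r (Nat.mul m (Nat.shiftLeft 2 28))) e.2) (nzY e.2) false) ih) L

/-- All extensions of `r` with `36` positive triples have a certificate. -/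
noncomputable def okExt (r P : ℕ) (L : List (ℕ × ℕ)) : Bool :=
  allTo (fun m => cond (Nat.beq (Nat.add (pc28 (Nat.xor r (TT' m))) 8) P) (srch r m L) true) 128

/-- All entries of the final table are fine. -/
noncomputable def okFin (D : List (ℕ × List (ℕ × ℕ))) : Bool :=
  List.rec (motive := fun _ => Bool) true
    (fun e _ ih => cond (okExt e.1 (posCount 8 e.1) e.2) ih false) D

theorem ok1 : okTable 1 0 1 reps2 dat1_0 = true := by decide +kernel
theorem ok2 : okTable 2 1 2 reps3 dat2_0 = true := by decide +kernel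
theorem ok3 : okTable 3 3 4 reps4 dat3_0 = true := by decide +kernel
theorem ok4 : okTable 4 6 8 reps5 dat4_0 = true := by decide +kernel
theorem ok5 : okTable 5 10 16 reps6 dat5_0 = true := by decide +kernel
theorem ok6_0 : okTable 6 15 32 reps7 dat6_0 = true := by decide +kernel
theorem ok6_1 : okTable 6 15 32 reps7 dat6_1 = true := by decide +kernel
theorem ok7_0 : okTable 7 21 64 reps8 dat7_0 = true := by decide +kernel
theorem ok7_1 : okTable 7 21 64 reps8 dat7_1 = true := by decide +kernel
theorem ok7_2 : okTable 7 21 64 reps8 dat7_2 = true := by decide +kernel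
theorem ok7_3 : okTable 7 21 64 reps8 dat7_3 = true := by decide +kernel
theorem ok7_4 : okTable 7 21 64 reps8 dat7_4 = true := by decide +kernel
theorem ok7_5 : okTable 7 21 64 reps8 dat7_5 = true := by decide +kernel
theorem okf_0 : okFin fin_0 = true := by decide +kernel
theorem okf_1 : okFin fin_1 = true := by decide +kernel
theorem okf_2 : okFin fin_2 = true := by decide +kernel
theorem okf_3 : okFin fin_3 = true := by decide +kernel
theorem okf_4 : okFin fin_4 = true := by decide +kernel
theorem okf_5 : okFin fin_5 = true := by decide +kernel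

end Pool.Agent.Helper82_Met
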