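import Mathlib

/-!
# The metric polytope

The definitions used in the statement of the result.
-/

set_option autoImplicit false

namespace Pool.Agent.Helper82_Met

/-- The pairs `i < j` of points of `{0, …, n - 1}`: the coordinates of the space. -/
abbrev Pair (n : ℕ) := {p : Fin n × Fin n // p.1 < p.2}

/-- The triples `i < j < k` of points of `{0, …, n - 1}`. -/
abbrev Triple (n : ℕ) := {t : Fin n × Fin n × Fin n // t.1 < t.2.1 ∧ t.2.1 < t.2.2}

/-- The pair `{i, j}` of the triple `i < j < k`. -/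
def Triple.ij {n : ℕ} (t : Triple n) : Pair n := ⟨(t.1.1, t.1.2.1), t.2.1⟩

/-- The pair `{i, k}` of the triple `i < j < k`. -/
def Triple.ik {n : ℕ} (t : Triple n) : Pair n := ⟨(t.1.1, t.1.2.2), lt_trans t.2.1 t.2.2⟩

/-- The pair `{j, k}` of the triple `i < j < k`. -/
def Triple.jk {n : ℕ} (t : Triple n) : Pair n := ⟨(t.1.2.1, t.1.2.2), t.2.2⟩

/-- Right side minus left side of the four triangle inequalities of the triple `t`:
`x_ij + x_ik + x_jk ≤ 2`, `x_ij ≤ x_ik + x_jk`, `x_ik ≤ x_ij + x_jk` and `x_jk ≤ x_ij + x_ik`. -/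
def slack {n : ℕ} (t : Triple n) (κ : Fin 4) (x : Pair n → ℝ) : ℝ :=
  match κ with
  | 0 => 2 - (x t.ij + x t.ik + x t.jk)
  | 1 => x t.ik + x t.jk - x t.ij
  | 2 => x t.ij + x t.jk - x t.ik
  | 3 => x t.ij + x t.ik - x t.jk

/-- The metric polytope `m_n`: the points satisfying the `4 * C(n, 3)` triangle inequalities. -/
def metricPolytope (n : ℕ) : Set (Pair n → ℝ) :=
  {x | ∀ (t : Triple n) (κ : Fin 4), 0 ≤ slack t κ x}

/-- The incidence of a point: the number of triangle inequalities that hold with equality. -/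
noncomputable def incidence {n : ℕ} (x : Pair n → ℝ) : ℕ :=
  Set.ncard {p : Triple n × Fin 4 | slack p.1 p.2 x = 0}

end Pool.Agent.Helper82_Met
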