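import Mathlib
import Pool.Agent.Helper82_Met.Defs

/-!
# Simple vertices of the metric polytope are `{1/3, 2/3}`-valued
-/

set_option autoImplicit false

namespace Pool.Agent.Helper82_Met

open Finset

variable {n : ℕ}

/-- Coefficient at `ij`. -/
def ca (κ : Fin 4) : ℝ := match κ with | 0 => 1 | 1 => 1 | 2 => -1 | 3 => -1
/-- Coefficient at `ik`. -/
def cb (κ : Fin 4) : ℝ := match κ with | 0 => 1 | 1 => -1 | 2 => 1 | 3 => -1
/-- Coefficient at `jk`. -/
def cc (κ : Fin 4) : ℝ := match κ with | 0 => 1 | 1 => -1 | 2 => -1 | 3 => 1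

/-- Linear part of an inequality. -/
def lin (p : Triple n × Fin 4) : (Pair n → ℝ) →ₗ[ℝ] ℝ :=
  ca p.2 • LinearMap.proj p.1.ij + cb p.2 • LinearMap.proj p.1.ik + cc p.2 • LinearMap.proj p.1.jk

theorem lin_apply (p : Triple n × Fin 4) (y : Pair n → ℝ) :
    lin p y = ca p.2 * y p.1.ij + cb p.2 * y p.1.ik + cc p.2 * y p.1.jk := by
  simp [lin]

theorem slack_eq (p : Triple n × Fin 4) (x : Pair n → ℝ) :
    slack p.1 p.2 x = (1 - lin p (fun e => 2 * x e - 1)) / 2 := by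
  obtain ⟨t, κ⟩ := p
  rw [lin_apply]
  fin_cases κ <;> simp [slack, ca, cb, cc] <;> ring

/-- Sign. -/
def Sg (a : ℝ) : Prop := a = 1 ∨ a = -1

theorem Sg.mul {a b : ℝ} (ha : Sg a) (hb : Sg b) : Sg (a * b) := by
  rcases ha with rfl | rfl <;> rcases hb with rfl | rfl <;> simp [Sg]

theorem Sg.neg {a : ℝ} (ha : Sg a) : Sg (-a) := by
  rcases ha with rfl | rfl <;> simp [Sg]

theorem Sg.sq {a : ℝ} (ha : Sg a) : a * a = 1 := by
  rcases ha with rfl | rfl <;> norm_num

theorem ca_sg (κ : Fin 4) : Sg (ca κ) := by fin_cases κ <;> simp [ca, Sg]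
theorem cb_sg (κ : Fin 4) : Sg (cb κ) := by fin_cases κ <;> simp [cb, Sg]
theorem cc_sg (κ : Fin 4) : Sg (cc κ) := by fin_cases κ <;> simp [cc, Sg]
theorem cc_eq (κ : Fin 4) : cc κ = ca κ * cb κ := by fin_cases κ <;> simp [ca, cb, cc]

/-- Symmetric coordinate. -/
def co (y : Pair n → ℝ) (i j : Fin n) : ℝ :=
  if h : i < j then y ⟨(i, j), h⟩ else if h : j < i then y ⟨(j, i), h⟩ else 0

theorem co_symm (y : Pair n → ℝ) (i j : Fin n) : co y i j = co y j i := by
  unfold co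
  split_ifs with h1 h2 h2
  · exact absurd h1 (not_lt_of_gt h2)
  · rfl
  · rfl
  · rfl

theorem co_lt (y : Pair n → ℝ) {i j : Fin n} (h : i < j) : co y i j = y ⟨(i, j), h⟩ := by
  unfold co
  rw [dif_pos h]

/-- Vertices of the triple of an inequality. -/
def verts (p : Triple n × Fin 4) : Finset (Fin n) := {p.1.1.1, p.1.1.2.1, p.1.1.2.2}

/-- The form of a signed triple. -/
def form (i j k : Fin n) (α β γ : ℝ) (y : Pair n → ℝ) : ℝ :=
  α * β * co y i j + α * γ * co y i k + β * γ * co y j k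

theorem exists_index_sorted {i j k : Fin n} (hij : i < j) (hjk : j < k) {α β γ : ℝ}
    (hα : Sg α) (hβ : Sg β) (hγ : Sg γ) :
    ∃ p : Triple n × Fin 4, (∀ y, lin p y = form i j k α β γ y) ∧ verts p = {i, j, k} := by
  have hik := lt_trans hij hjk
  have key : ∃ κ : Fin 4, ca κ = α * β ∧ cb κ = α * γ ∧ cc κ = β * γ := by
    rcases hα with rfl | rfl <;> rcases hβ with rfl | rfl <;> rcases hγ with rfl | rfl
    · exact ⟨0, by simp [ca, cb, cc]⟩
    · exact ⟨1, by simp [ca, cb, cc]⟩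
    · exact ⟨2, by simp [ca, cb, cc]⟩
    · exact ⟨3, by simp [ca, cb, cc]⟩
    · exact ⟨3, by simp [ca, cb, cc]⟩
    · exact ⟨2, by simp [ca, cb, cc]⟩
    · exact ⟨1, by simp [ca, cb, cc]⟩
    · exact ⟨0, by simp [ca, cb, cc]⟩
  obtain ⟨κ, h1, h2, h3⟩ := key
  refine ⟨(⟨(i, j, k), hij, hjk⟩, κ), fun y => ?_, rfl⟩
  rw [lin_apply]
  show ca κ * y ⟨(i, j), _⟩ + cb κ * y ⟨(i, k), _⟩ + cc κ * y ⟨(j, k), _⟩ = _
  unfold form
  rw [co_lt y hij, co_lt y hik, co_lt y hjk, h1, h2, h3]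

theorem exists_index {i j k : Fin n} (hij : i ≠ j) (hik : i ≠ k) (hjk : j ≠ k) {α β γ : ℝ}
    (hα : Sg α) (hβ : Sg β) (hγ : Sg γ) :
    ∃ p : Triple n × Fin 4, (∀ y, lin p y = form i j k α β γ y) ∧ verts p = {i, j, k} := by
  rcases lt_or_gt_of_ne hij with a | a <;> rcases lt_or_gt_of_ne hik with b | b <;>
    rcases lt_or_gt_of_ne hjk with c | c
  · exact exists_index_sorted a c hα hβ hγ
  · obtain ⟨p, h1, h2⟩ := exists_index_sorted b c hα hγ hβ
    refine ⟨p, fun y => ?_, ?_⟩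
    · rw [h1]; unfold form; rw [co_symm y k j]; ring
    · rw [h2]; ext x; simp; tauto
  · exact absurd (lt_trans a c) (not_lt_of_gt b)
  · obtain ⟨p, h1, h2⟩ := exists_index_sorted b a hγ hα hβ
    refine ⟨p, fun y => ?_, ?_⟩
    · rw [h1]; unfold form; rw [co_symm y k i, co_symm y k j]; ring
    · rw [h2]; ext x; simp; tauto
  · obtain ⟨p, h1, h2⟩ := exists_index_sorted a b hβ hα hγ
    refine ⟨p, fun y => ?_, ?_⟩
    · rw [h1]; unfold form; rw [co_symm y j i]; ring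
    · rw [h2]; ext x; simp; tauto
  · exact absurd (lt_trans c a) (not_lt_of_gt b)
  · obtain ⟨p, h1, h2⟩ := exists_index_sorted c b hβ hγ hα
    refine ⟨p, fun y => ?_, ?_⟩
    · rw [h1]; unfold form; rw [co_symm y j i, co_symm y k i]; ring
    · rw [h2]; ext x; simp; tauto
  · obtain ⟨p, h1, h2⟩ := exists_index_sorted c a hγ hβ hα
    refine ⟨p, fun y => ?_, ?_⟩
    · rw [h1]; unfold form; rw [co_symm y k j, co_symm y k i, co_symm y j i]; ring
    · rw [h2]; ext x; simp; tauto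

/-- Representation of an inequality at one of its pairs. -/
theorem rep (p : Triple n × Fin 4) (e : Pair n) (c : ℝ)
    (h : (e = p.1.ij ∧ c = ca p.2) ∨ (e = p.1.ik ∧ c = cb p.2) ∨ (e = p.1.jk ∧ c = cc p.2)) :
    ∃ k : Fin n, e.1.1 ≠ k ∧ e.1.2 ≠ k ∧ verts p = {e.1.1, e.1.2, k} ∧
      ∃ α β γ : ℝ, Sg α ∧ Sg β ∧ Sg γ ∧ α * β = c ∧ ∀ y, lin p y = form e.1.1 e.1.2 k α β γ y := by
  obtain ⟨⟨⟨i, j, k⟩, hij, hjk⟩, κ⟩ := p
  have hik : i < k := lt_trans hij hjk
  have hA := ca_sg κ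
  have hB := cb_sg κ
  have hC := cc_sg κ
  have hABC := cc_eq κ
  rcases h with ⟨rfl, rfl⟩ | ⟨rfl, rfl⟩ | ⟨rfl, rfl⟩
  · refine ⟨k, ne_of_lt hik, ne_of_lt hjk, rfl, 1, ca κ, cb κ, Or.inl rfl, hA, hB, by simp, ?_⟩
    intro y
    rw [lin_apply]
    unfold form
    show ca κ * y ⟨(i, j), _⟩ + cb κ * y ⟨(i, k), _⟩ + cc κ * y ⟨(j, k), _⟩ =
      1 * ca κ * co y i j + 1 * cb κ * co y i k + ca κ * cb κ * co y j k
    rw [co_lt y hij, co_lt y hik, co_lt y hjk, hABC]
    ring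
  · refine ⟨j, ne_of_lt hij, (ne_of_lt hjk).symm, ?_, 1, cb κ, ca κ, Or.inl rfl, hB, hA,
      by simp, ?_⟩
    · ext x
      show x ∈ ({i, j, k} : Finset (Fin n)) ↔ x ∈ ({i, k, j} : Finset (Fin n))
      simp; tauto
    intro y
    rw [lin_apply]
    unfold form
    show ca κ * y ⟨(i, j), _⟩ + cb κ * y ⟨(i, k), _⟩ + cc κ * y ⟨(j, k), _⟩ =
      1 * cb κ * co y i k + 1 * ca κ * co y i j + cb κ * ca κ * co y k j
    rw [co_symm y k j, co_lt y hij, co_lt y hik, co_lt y hjk, hABC]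
    ring
  · refine ⟨i, (ne_of_lt hij).symm, (ne_of_lt hik).symm, ?_, 1, cc κ, ca κ, Or.inl rfl, hC, hA,
      by simp, ?_⟩
    · ext x
      show x ∈ ({i, j, k} : Finset (Fin n)) ↔ x ∈ ({j, k, i} : Finset (Fin n))
      simp; tauto
    intro y
    rw [lin_apply]
    unfold form
    show ca κ * y ⟨(i, j), _⟩ + cb κ * y ⟨(i, k), _⟩ + cc κ * y ⟨(j, k), _⟩ =
      1 * cc κ * co y j k + 1 * ca κ * co y j i + cc κ * ca κ * co y k i
    rw [co_symm y j i, co_symm y k i, co_lt y hij, co_lt y hik, co_lt y hjk, hABC]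
    have h2 : ca κ * cb κ * ca κ = cb κ := by
      have := hA.sq
      calc ca κ * cb κ * ca κ = (ca κ * ca κ) * cb κ := by ring
        _ = cb κ := by rw [this, one_mul]
    rw [h2]
    ring

section Vertex

variable (Z : Pair n → ℝ) (hZ : ∀ p : Triple n × Fin 4, lin p Z ≤ 1)
  (indep : ∀ p : Triple n × Fin 4, lin p Z = 1 →
    ∃ y, lin p y = 1 ∧ ∀ p', lin p' Z = 1 → p' ≠ p → lin p' y = 0)

include hZ indep in
/-- No coordinate is `±1`. -/
theorem no_one (hn : 4 ≤ n) {a b : Fin n} (hab : a ≠ b) {δ : ℝ} (hδ : Sg δ)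
    (h : co Z a b = δ) : False := by
  -- two further points
  have hcard : ∃ l l' : Fin n, a ≠ l ∧ b ≠ l ∧ a ≠ l' ∧ b ≠ l' ∧ l ≠ l' := by
    have h1 : 1 < (Finset.univ \ {a, b} : Finset (Fin n)).card := by
      have h2 : ({a, b} : Finset (Fin n)).card = 2 := Finset.card_pair hab
      rw [Finset.card_sdiff_of_subset (Finset.subset_univ _), Finset.card_univ, Fintype.card_fin,
        h2]
      omega
    obtain ⟨l, hl, l', hl', hne⟩ := Finset.one_lt_card.mp h1
    simp only [Finset.mem_sdiff, Finset.mem_univ, true_and, Finset.mem_insert,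
      Finset.mem_singleton, not_or] at hl hl'
    exact ⟨l, l', Ne.symm hl.1, Ne.symm hl.2, Ne.symm hl'.1, Ne.symm hl'.2, hne⟩
  obtain ⟨l, l', hal, hbl, hal', hbl', hll⟩ := hcard
  have main : ∀ m : Fin n, a ≠ m → b ≠ m → ∃ p q : Triple n × Fin 4,
      lin p Z = 1 ∧ lin q Z = 1 ∧ (∀ y, lin p y + lin q y = 2 * δ * co y a b) ∧
        verts p = {a, b, m} ∧ verts q = {a, b, m} := by
    intro m ham hbm
    obtain ⟨p, hp, hpv⟩ := exists_index hab ham hbm (α := 1) (β := δ) (γ := 1)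
      (Or.inl rfl) hδ (Or.inl rfl)
    obtain ⟨q, hq, hqv⟩ := exists_index hab ham hbm (α := 1) (β := δ) (γ := -1)
      (Or.inl rfl) hδ (Or.inr rfl)
    have h1 := hZ p
    have h2 := hZ q
    rw [hp] at h1
    rw [hq] at h2
    unfold form at h1 h2
    rw [h] at h1 h2
    have hs := hδ.sq
    have h3 : co Z a m + δ * co Z b m = 0 := by
      apply le_antisymm <;> nlinarith [h1, h2, hs]
    refine ⟨p, q, ?_, ?_, ?_, hpv, hqv⟩
    · rw [hp]; unfold form; rw [h]; linear_combination hs + h3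
    · rw [hq]; unfold form; rw [h]; linear_combination hs - h3
    · intro y
      rw [hp, hq]
      unfold form
      ring
  obtain ⟨p, q, hp, hq, hs, hv, -⟩ := main l hal hbl
  obtain ⟨p', q', hp', hq', hs', hv', hw'⟩ := main l' hal' hbl'
  obtain ⟨y, hy1, hy⟩ := indep p hp
  have aux : ∀ r : Triple n × Fin 4, verts r = {a, b, l'} → r ≠ p := by
    intro r hr he
    rw [he, hv] at hr
    have : l' ∈ ({a, b, l} : Finset (Fin n)) := by rw [hr]; simp
    simp only [Finset.mem_insert, Finset.mem_singleton] at this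
    rcases this with h | h | h
    · exact hal' h.symm
    · exact hbl' h.symm
    · exact hll h.symm
  have e1 := hs y
  have e2 := hs' y
  rw [hy1] at e1
  rw [hy p' hp' (aux p' hv'), hy q' hq' (aux q' hw')] at e2
  have hq0 : lin q y = 0 ∨ lin q y = 1 := by
    by_cases hqp : q = p
    · right; rw [hqp]; exact hy1
    · left; exact hy q hq hqp
  rcases hq0 with h4 | h4 <;> rw [h4] at e1 <;> linarith

include hZ indep in
/-- Two tight inequalities have the same sign at a common pair. -/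
theorem consistent (hn : 4 ≤ n) {u w k l : Fin n} (huw : u ≠ w) (huk : u ≠ k) (hwk : w ≠ k)
    (hul : u ≠ l) (hwl : w ≠ l) {p q : Triple n × Fin 4} {α β γ α' β' γ' : ℝ}
    (hα : Sg α) (hβ : Sg β) (hγ : Sg γ) (hα' : Sg α') (hβ' : Sg β') (hγ' : Sg γ')
    (hp : ∀ y, lin p y = form u w k α β γ y) (hq : ∀ y, lin q y = form u w l α' β' γ' y)
    (hvp : verts p = {u, w, k}) (hvq : verts q = {u, w, l})
    (tp : lin p Z = 1) (tq : lin q Z = 1) : α * β = α' * β' := by
  by_contra hne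
  -- normalize `α' = α`, `β' = -β`
  have hnorm : ∃ γ'' : ℝ, Sg γ'' ∧ ∀ y, lin q y = form u w l α (-β) γ'' y := by
    have hcase : (α' = α ∧ β' = -β) ∨ (α' = -α ∧ β' = β) := by
      rcases hα with rfl | rfl <;> rcases hβ with rfl | rfl <;> rcases hα' with rfl | rfl <;>
        rcases hβ' with rfl | rfl <;> simp_all
    rcases hcase with ⟨h1, h2⟩ | ⟨h1, h2⟩
    · refine ⟨γ', hγ', fun y => ?_⟩
      rw [hq, h1, h2]
    · refine ⟨-γ', hγ'.neg, fun y => ?_⟩
      rw [hq, h1, h2]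
      unfold form
      ring
  obtain ⟨γ'', hγ'', hq'⟩ := hnorm
  have tp' := tp
  have tq' := tq
  rw [hp] at tp'
  rw [hq'] at tq'
  unfold form at tp' tq'
  by_cases hkl : k = l
  · subst hkl
    rcases (show γ'' = γ ∨ γ'' = -γ by
      rcases hγ with rfl | rfl <;> rcases hγ'' with rfl | rfl <;> simp) with h1 | h1
    · rw [h1] at tq'
      have h2 : co Z u k = α * γ := by
        have h3 : α * γ * co Z u k = 1 := by linarith
        have h4 := (hα.mul hγ).sq
        calc co Z u k = (α * γ) * (α * γ) * co Z u k := by rw [h4, one_mul]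
          _ = α * γ * (α * γ * co Z u k) := by ring
          _ = α * γ := by rw [h3, mul_one]
      exact no_one Z hZ indep hn huk (hα.mul hγ) h2
    · rw [h1] at tq'
      have h2 : co Z w k = β * γ := by
        have h3 : β * γ * co Z w k = 1 := by linarith
        have h4 := (hβ.mul hγ).sq
        calc co Z w k = (β * γ) * (β * γ) * co Z w k := by rw [h4, one_mul]
          _ = β * γ * (β * γ * co Z w k) := by ring
          _ = β * γ := by rw [h3, mul_one]
      exact no_one Z hZ indep hn hwk (hβ.mul hγ) h2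
  · obtain ⟨r, hr, hrv⟩ := exists_index huk hul hkl hα hγ hγ''
    obtain ⟨s, hs, hsv⟩ := exists_index hwk hwl hkl hβ hγ hγ''.neg
    have h1 := hZ r
    have h2 := hZ s
    rw [hr] at h1
    rw [hs] at h2
    have hid : ∀ y, lin p y + lin q y = lin r y + lin s y := by
      intro y
      rw [hp, hq', hr, hs]
      unfold form
      ring
    have h3 := hid Z
    rw [tp, tq, hr, hs] at h3
    have tr : lin r Z = 1 := by rw [hr]; linarith
    have ts : lin s Z = 1 := by rw [hs]; linarith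
    obtain ⟨y, hy1, hy⟩ := indep p tp
    have hl : l ∉ verts p := by
      rw [hvp]
      simp only [Finset.mem_insert, Finset.mem_singleton, not_or]
      exact ⟨Ne.symm hul, Ne.symm hwl, Ne.symm hkl⟩
    have n1 : q ≠ p := fun h => hl (by rw [← h, hvq]; simp)
    have n2 : r ≠ p := fun h => hl (by rw [← h, hrv]; simp)
    have n3 : s ≠ p := fun h => hl (by rw [← h, hsv]; simp)
    have h4 := hid y
    rw [hy1, hy q tq n1, hy r tr n2, hy s ts n3] at h4
    norm_num at h4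

/-- The pair `e` is used by the inequality `p` with coefficient `c`. -/
def Uses (p : Triple n × Fin 4) (e : Pair n) (c : ℝ) : Prop :=
  (e = p.1.ij ∧ c = ca p.2) ∨ (e = p.1.ik ∧ c = cb p.2) ∨ (e = p.1.jk ∧ c = cc p.2)

include hZ indep in
theorem uses_unique (hn : 4 ≤ n) {p q : Triple n × Fin 4} {e : Pair n} {c d : ℝ}
    (hp : Uses p e c) (hq : Uses q e d) (tp : lin p Z = 1) (tq : lin q Z = 1) : c = d := by
  obtain ⟨k, h1, h2, hv, α, β, γ, s1, s2, s3, hc, hl⟩ := rep p e c hp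
  obtain ⟨l, h1', h2', hv', α', β', γ', s1', s2', s3', hc', hl'⟩ := rep q e d hq
  rw [← hc, ← hc']
  exact consistent Z hZ indep hn (ne_of_lt e.2) h1 h2 h1' h2' s1 s2 s3 s1' s2' s3' hl hl' hv hv'
    tp tq

include hZ indep in
/-- A simple vertex has all centred coordinates `±1/3`. -/
theorem third (hn : 4 ≤ n) (inj : ∀ y : Pair n → ℝ, (∀ p, lin p Z = 1 → lin p y = 0) → y = 0) :
    ∃ σ : Pair n → ℝ, (∀ e, Sg (σ e)) ∧ ∀ e, Z e = σ e / 3 := by
  classical
  have hex : ∀ e : Pair n, ∃ s : ℝ, Sg s ∧ ∀ p c, lin p Z = 1 → Uses p e c → c = s := by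
    intro e
    by_cases h : ∃ (p : Triple n × Fin 4) (c : ℝ), lin p Z = 1 ∧ Uses p e c
    · obtain ⟨p, c, tp, hp⟩ := h
      refine ⟨c, ?_, fun q d tq hq => uses_unique Z hZ indep hn hq hp tq tp⟩
      rcases hp with ⟨-, rfl⟩ | ⟨-, rfl⟩ | ⟨-, rfl⟩
      · exact ca_sg _
      · exact cb_sg _
      · exact cc_sg _
    · refine ⟨1, Or.inl rfl, fun p c tp hp => absurd ⟨p, c, tp, hp⟩ h⟩
  choose σ hσ hu using hex
  refine ⟨σ, hσ, ?_⟩
  have h0 : (fun e => Z e - σ e / 3) = 0 := by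
    apply inj
    intro p tp
    have a1 := hu p.1.ij p _ tp (Or.inl ⟨rfl, rfl⟩)
    have a2 := hu p.1.ik p _ tp (Or.inr (Or.inl ⟨rfl, rfl⟩))
    have a3 := hu p.1.jk p _ tp (Or.inr (Or.inr ⟨rfl, rfl⟩))
    rw [lin_apply] at tp ⊢
    have b1 := (ca_sg p.2).sq
    have b2 := (cb_sg p.2).sq
    have b3 := (cc_sg p.2).sq
    rw [← a1, ← a2, ← a3]
    linear_combination tp - b1 / 3 - b2 / 3 - b3 / 3
  intro e
  have := congrFun h0 e
  simp only [Pi.zero_apply] at this
  linarith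

end Vertex

end Pool.Agent.Helper82_Met
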