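import Mathlib
import Pool.Agent.Helper82_Met.Check

/-!
# Soundness of the classification certificates
-/

set_option autoImplicit false

namespace Pool.Agent.Helper82_Met

theorem allTo_iff (f : ℕ → Bool) (n : ℕ) : allTo f n = true ↔ ∀ i < n, f i = true := by
  induction n with
  | zero => simp [allTo]
  | succ n ih =>
    have h : allTo f (n + 1) = cond (f n) (allTo f n) false := rfl
    rw [h]
    constructor
    · intro hc i hi
      cases hf : f n with
      | false => rw [hf] at hc; simp at hc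
      | true =>
        rw [hf] at hc
        rcases Nat.lt_succ_iff_lt_or_eq.mp hi with h1 | h1
        · exact (ih.mp hc) i h1
        · rw [h1]; exact hf
    · intro hc
      rw [hc n (Nat.lt_succ_self n)]
      exact ih.mpr fun i hi => hc i (Nat.lt_succ_of_lt hi)

theorem sumTo_eq (f : ℕ → ℕ) (n : ℕ) : sumTo f n = ∑ i ∈ Finset.range n, f i := by
  induction n with
  | zero => simp [sumTo]
  | succ n ih =>
    have h : sumTo f (n + 1) = sumTo f n + f n := rfl
    rw [h, ih, Finset.sum_range_succ]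

theorem memb_mem (x : ℕ) (L : List ℕ) (h : memb x L = true) : x ∈ L := by
  induction L with
  | nil => simp [memb] at h
  | cons a L ih =>
    have h' : memb x (a :: L) = cond (Nat.beq x a) true (memb x L) := rfl
    rw [h'] at h
    cases hb : Nat.beq x a with
    | true => rw [Nat.eq_of_beq_eq_true hb]; exact List.mem_cons_self
    | false => rw [hb] at h; exact List.mem_cons_of_mem _ (ih h)

theorem cond_split {a b : Bool} (h : cond a b false = true) : a = true ∧ b = true := by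
  cases a <;> simp_all

theorem testBit_eq (x i : ℕ) : x.testBit i = decide (Nat.shiftRight x i % 2 = 1) := by
  rw [Nat.testBit_eq_decide_div_mod_eq]
  congr 2
  rw [show Nat.shiftRight x i = x >>> i from rfl, Nat.shiftRight_eq_div_pow]

theorem parity4 (a b c d : ℕ) (h : (a + (b + (c + d))) % 2 = 0) :
    decide (a % 2 = 1) = (decide (b % 2 = 1) ^^ (decide (c % 2 = 1) ^^ decide (d % 2 = 1))) := by
  rcases Nat.mod_two_eq_zero_or_one a with ha | ha <;>
  rcases Nat.mod_two_eq_zero_or_one b with hb | hb <;>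
  rcases Nat.mod_two_eq_zero_or_one c with hc | hc <;>
  rcases Nat.mod_two_eq_zero_or_one d with hd | hd <;>
  simp only [ha, hb, hc, hd] <;> first | (exfalso; omega) | decide

/-- Switching bit. -/
def gb (w x : ℕ) : Bool := decide (gd w x % 2 = 1)

theorem chkPair_sound (c r' w x y : ℕ) (h : chkPair c r' w x y = true) :
    qd w x ≠ qd w y ∧
    r'.testBit (tri x y) = (c.testBit (sp (qd w x) (qd w y)) ^^ (gb w x ^^ gb w y)) := by
  unfold chkPair at h
  cases hb : Nat.beq (qd w x) (qd w y) with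
  | true => rw [hb] at h; simp at h
  | false =>
    rw [hb] at h
    refine ⟨Nat.ne_of_beq_eq_false hb, ?_⟩
    have h2 := Nat.eq_of_beq_eq_true h
    rw [testBit_eq, testBit_eq, gb, gb]
    exact parity4 _ _ _ _ h2

theorem sp_eq : ∀ a < 8, ∀ b < 8, a ≠ b → sp a b = if a < b then tri a b else tri b a := by
  decide +kernel

/-- Symmetric sign function. -/
def Sym (s : ℕ → ℕ → Bool) : Prop := ∀ i j, s i j = s j i

/-- The sign function is given by the code on the first `n` points. -/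
def Agree (n : ℕ) (s : ℕ → ℕ → Bool) (c : ℕ) : Prop :=
  ∀ j < n, ∀ i < j, s i j = c.testBit (tri i j)

/-- Two sign functions on nine points agree up to relabelling and switching. -/
def Eqv (s t : ℕ → ℕ → Bool) : Prop :=
  ∃ (q : ℕ → ℕ) (g : ℕ → Bool), (∀ x < 9, q x < 9) ∧ (∀ x < 9, ∀ y < 9, q x = q y → x = y) ∧
    ∀ x < 9, ∀ y < 9, x ≠ y → t x y = (s (q x) (q y) ^^ (g x ^^ g y))

theorem Eqv.refl (s : ℕ → ℕ → Bool) : Eqv s s :=
  ⟨id, fun _ => false, fun _ h => h, fun _ _ _ _ h => h, fun x _ y _ _ => by simp⟩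

theorem xor_lemma (a b c d e : Bool) :
    (a ^^ (b ^^ c) ^^ (d ^^ e)) = (a ^^ ((b ^^ d) ^^ (c ^^ e))) := by
  cases a <;> cases b <;> cases c <;> cases d <;> cases e <;> rfl

theorem Eqv.trans {s t u : ℕ → ℕ → Bool} (h1 : Eqv s t) (h2 : Eqv t u) : Eqv s u := by
  obtain ⟨q, g, hq, hi, he⟩ := h1
  obtain ⟨q', g', hq', hi', he'⟩ := h2
  refine ⟨fun x => q (q' x), fun x => (g (q' x) ^^ g' x), fun x hx => hq _ (hq' x hx), ?_, ?_⟩
  · intro x hx y hy h
    exact hi' x hx y hy (hi _ (hq' x hx) _ (hq' y hy) h)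
  · intro x hx y hy hxy
    rw [he' x hx y hy hxy, he _ (hq' x hx) _ (hq' y hy) (fun h => hxy (hi' x hx y hy h))]
    exact xor_lemma _ _ _ _ _

/-- Relabelling by a certificate. -/
theorem cert_step (n c r' w : ℕ) (hn : n ≤ 8) (t : ℕ → ℕ → Bool) (ht : Sym t)
    (hA : Agree n t c) (h : chk n c r' w = true) :
    ∃ t', Sym t' ∧ Eqv t t' ∧ Agree n t' r' := by
  obtain ⟨h1, h2⟩ := cond_split h
  rw [allTo_iff] at h1 h2
  have hq : ∀ x < n, qd w x < n := fun x hx => Nat.le_of_ble_eq_true (h1 x hx)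
  have hp : ∀ y < n, ∀ x < y, qd w x ≠ qd w y ∧
      r'.testBit (tri x y) = (c.testBit (sp (qd w x) (qd w y)) ^^ (gb w x ^^ gb w y)) := by
    intro y hy x hx
    have h3 := h2 y hy
    rw [allTo_iff] at h3
    exact chkPair_sound c r' w x y (h3 x hx)
  have hinj : ∀ x < n, ∀ y < n, qd w x = qd w y → x = y := by
    intro x hx y hy h
    rcases lt_trichotomy x y with h4 | h4 | h4
    · exact absurd h (hp y hy x h4).1
    · exact h4
    · exact absurd h.symm (hp x hx y h4).1
  set q : ℕ → ℕ := fun x => if x < n then qd w x else x with hqdef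
  set g : ℕ → Bool := fun x => if x < n then gb w x else false with hgdef
  refine ⟨fun x y => (t (q x) (q y) ^^ (g x ^^ g y)), ?_, ⟨q, g, ?_, ?_, ?_⟩, ?_⟩
  · intro i j
    show (t (q i) (q j) ^^ (g i ^^ g j)) = (t (q j) (q i) ^^ (g j ^^ g i))
    rw [ht (q i) (q j), Bool.xor_comm (g i) (g j)]
  · intro x hx
    simp only [hqdef]
    split_ifs with h5
    · have := hq x h5; omega
    · exact hx
  · intro x hx y hy h
    simp only [hqdef] at h
    split_ifs at h with h5 h6 h6
    · exact hinj x h5 y h6 h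
    · have := hq x h5; omega
    · have := hq y h6; omega
    · exact h
  · intro x _ y _ _
    rfl
  · intro y hy x hx
    have hxn : x < n := lt_trans hx hy
    obtain ⟨h5, h6⟩ := hp y hy x hx
    rw [h6]
    show (t (q x) (q y) ^^ (g x ^^ g y)) = _
    simp only [hqdef, hgdef, if_pos hxn, if_pos hy]
    congr 1
    have hx8 : qd w x < 8 := lt_of_lt_of_le (hq x hxn) hn
    have hy8 : qd w y < 8 := lt_of_lt_of_le (hq y hy) hn
    rw [sp_eq _ hx8 _ hy8 h5]
    split_ifs with h7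
    · exact hA _ (hq y hy) _ h7
    · rw [ht]
      exact hA _ (hq x hxn) _ (by omega)

theorem exists_bits (g : ℕ → Bool) (n : ℕ) : ∃ m < 2 ^ n, ∀ i < n, m.testBit i = g i := by
  refine ⟨Nat.ofBits (fun i : Fin n => g i), Nat.ofBits_lt_two_pow _, fun i hi => ?_⟩
  rw [Nat.testBit_ofBits_lt _ _ hi]

/-- Normalization of the last row. -/
theorem normalize (n r : ℕ) (hn : 1 ≤ n) (hn8 : n ≤ 8) (hr : r < 2 ^ (n * (n - 1) / 2))
    (t : ℕ → ℕ → Bool) (ht : Sym t) (hA : Agree n t r) :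
    ∃ t', Sym t' ∧ Eqv t t' ∧ ∃ m < 2 ^ (n - 1),
      Agree (n + 1) t' (r + m * 2 ^ (n * (n - 1) / 2 + 1)) := by
  set g : ℕ → Bool := fun x => decide (x = n) && t 0 n with hg
  set t' : ℕ → ℕ → Bool := fun x y => (t x y ^^ (g x ^^ g y)) with ht'
  have h0 : t' 0 n = false := by
    have hn0 : (0 : ℕ) ≠ n := by omega
    simp [ht', hg, hn0]
  obtain ⟨m, hm, hb⟩ := exists_bits (fun i => t' (i + 1) n) (n - 1)
  refine ⟨t', ?_, ⟨id, g, fun _ h => h, fun _ _ _ _ h => h, fun x _ y _ _ => rfl⟩, m, hm, ?_⟩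
  · intro i j
    simp only [ht']
    rw [ht i j, Bool.xor_comm (g i) (g j)]
  · intro j hj i hi
    have hc : r + m * 2 ^ (n * (n - 1) / 2 + 1) = 2 ^ (n * (n - 1) / 2) * (2 * m) + r := by
      rw [pow_succ]; ring
    rw [hc, Nat.testBit_two_pow_mul_add _ hr]
    rcases Nat.lt_succ_iff_lt_or_eq.mp hj with h1 | h1
    · have hlt : tri i j < n * (n - 1) / 2 := by
        show j * (j - 1) / 2 + i < n * (n - 1) / 2
        have h2 : j * (j - 1) / 2 + j ≤ n * (n - 1) / 2 := by
          interval_cases n <;> interval_cases j <;> simp_all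
        omega
      rw [if_pos hlt, ← hA j h1 i hi]
      have hj' : j ≠ n := by omega
      have hi' : i ≠ n := by omega
      simp [ht', hg, hj', hi']
    · subst h1
      have hge : ¬ tri i j < j * (j - 1) / 2 := by
        show ¬ j * (j - 1) / 2 + i < j * (j - 1) / 2
        omega
      rw [if_neg hge]
      have h3 : tri i j - j * (j - 1) / 2 = i := by
        show j * (j - 1) / 2 + i - j * (j - 1) / 2 = i
        omega
      rw [h3]
      rcases Nat.eq_zero_or_pos i with h4 | h4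
      · subst h4
        rw [h0]
        simp
      · obtain ⟨i', rfl⟩ : ∃ i', i = i' + 1 := ⟨i - 1, by omega⟩
        rw [Nat.testBit_succ, Nat.mul_div_cancel_left _ (by norm_num : 0 < 2)]
        exact (hb i' (by omega)).symm

/-- The certificates cover all extensions. -/
def Cov (n : ℕ) (R R' : List ℕ) : Prop :=
  ∀ r ∈ R, r < 2 ^ (n * (n - 1) / 2) ∧ ∀ m < 2 ^ (n - 1),
    ∃ r' ∈ R', ∃ w, chk (n + 1) (r + m * 2 ^ (n * (n - 1) / 2 + 1)) r' w = true

theorem level_step (n : ℕ) (R R' : List ℕ) (hn : 1 ≤ n) (hn7 : n ≤ 7) (hC : Cov n R R')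
    (t : ℕ → ℕ → Bool) (ht : Sym t) (h : ∃ r ∈ R, Agree n t r) :
    ∃ t', Sym t' ∧ Eqv t t' ∧ ∃ r' ∈ R', Agree (n + 1) t' r' := by
  obtain ⟨r, hr, hA⟩ := h
  obtain ⟨hlt, hcov⟩ := hC r hr
  obtain ⟨t1, hs1, he1, m, hm, hA1⟩ := normalize n r hn (by omega) hlt t ht hA
  obtain ⟨r', hr', w, hw⟩ := hcov m hm
  obtain ⟨t2, hs2, he2, hA2⟩ := cert_step (n + 1) _ r' w (by omega) t1 hs1 hA1 hw
  exact ⟨t2, hs2, he1.trans he2, r', hr', hA2⟩

theorem covers_sound (n k M : ℕ) (R : List ℕ) (r : ℕ) (L : List (ℕ × ℕ × ℕ)) :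
    ∀ m0, covers n k M R r L m0 = true → ∀ m, m0 ≤ m → m < M →
      ∃ r' ∈ R, ∃ w, chk (n + 1) (r + m * 2 ^ (k + 1)) r' w = true := by
  induction L with
  | nil =>
    intro m0 h m h1 h2
    have h3 : Nat.beq m0 M = true := h
    have := Nat.eq_of_beq_eq_true h3
    omega
  | cons e L ih =>
    intro m0 h m h1 h2
    have h' : covers n k M R r (e :: L) m0 =
      cond (Nat.beq e.1 (Nat.add r (Nat.mul m0 (Nat.shiftLeft 2 k))))
      (cond (memb e.2.1 R) (cond (chk (Nat.succ n) e.1 e.2.1 e.2.2)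
        (covers n k M R r L (Nat.succ m0)) false) false) false := rfl
    rw [h'] at h
    obtain ⟨ha, h⟩ := cond_split h
    obtain ⟨hb, h⟩ := cond_split h
    obtain ⟨hc, h⟩ := cond_split h
    rcases Nat.eq_or_lt_of_le h1 with h5 | h5
    · refine ⟨e.2.1, memb_mem _ _ hb, e.2.2, ?_⟩
      have h6 := Nat.eq_of_beq_eq_true ha
      have h7 : Nat.add r (Nat.mul m0 (Nat.shiftLeft 2 k)) = r + m * 2 ^ (k + 1) := by
        show r + m0 * (2 <<< k) = r + m * 2 ^ (k + 1)
        rw [Nat.shiftLeft_eq, h5, pow_succ]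
        ring
      rw [← h7, ← h6]
      exact hc
    · exact ih (Nat.succ m0) h m h5 h2

theorem okTable_sound (n k M : ℕ) (R : List ℕ) (D : List (ℕ × List (ℕ × ℕ × ℕ)))
    (h : okTable n k M R D = true) : ∀ e ∈ D, e.1 < 2 ^ k ∧ ∀ m < M,
      ∃ r' ∈ R, ∃ w, chk (n + 1) (e.1 + m * 2 ^ (k + 1)) r' w = true := by
  induction D with
  | nil => intro e he; simp at he
  | cons a D ih =>
    have h' : okTable n k M R (a :: D) = cond (Nat.ble (Nat.succ a.1) (Nat.shiftLeft 1 k))
      (cond (covers n k M R a.1 a.2 0) (okTable n k M R D) false) false := rfl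
    rw [h'] at h
    obtain ⟨ha, h⟩ := cond_split h
    obtain ⟨hb, h⟩ := cond_split h
    intro e he
    rcases List.mem_cons.mp he with h1 | h1
    · subst h1
      refine ⟨?_, fun m hm => covers_sound n k M R e.1 e.2 0 hb m (Nat.zero_le _) hm⟩
      have h2 := Nat.le_of_ble_eq_true ha
      have h3 : Nat.shiftLeft 1 k = 2 ^ k := by
        show 1 <<< k = 2 ^ k
        rw [Nat.shiftLeft_eq, one_mul]
      rw [h3] at h2
      exact h2
    · exact ih h e h1

theorem cov_of (n k M : ℕ) (hk : n * (n - 1) / 2 = k) (hM : 2 ^ (n - 1) = M) (R R' : List ℕ)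
    (D : List (ℕ × List (ℕ × ℕ × ℕ))) (hR : D.map Prod.fst = R)
    (h : ∀ e ∈ D, e.1 < 2 ^ k ∧ ∀ m < M,
      ∃ r' ∈ R', ∃ w, chk (n + 1) (e.1 + m * 2 ^ (k + 1)) r' w = true) : Cov n R R' := by
  intro r hr
  rw [← hR] at hr
  obtain ⟨e, he, rfl⟩ := List.mem_map.mp hr
  rw [hk, hM]
  exact h e he

theorem cov1 : Cov 1 reps1 reps2 :=
  cov_of 1 0 1 (by norm_num) (by norm_num) _ _ dat1_0 (by decide +kernel)
    (okTable_sound _ _ _ _ _ ok1)

theorem cov2 : Cov 2 reps2 reps3 :=
  cov_of 2 1 2 (by norm_num) (by norm_num) _ _ dat2_0 (by decide +kernel)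
    (okTable_sound _ _ _ _ _ ok2)

theorem cov3 : Cov 3 reps3 reps4 :=
  cov_of 3 3 4 (by norm_num) (by norm_num) _ _ dat3_0 (by decide +kernel)
    (okTable_sound _ _ _ _ _ ok3)

theorem cov4 : Cov 4 reps4 reps5 :=
  cov_of 4 6 8 (by norm_num) (by norm_num) _ _ dat4_0 (by decide +kernel)
    (okTable_sound _ _ _ _ _ ok4)

theorem cov5 : Cov 5 reps5 reps6 :=
  cov_of 5 10 16 (by norm_num) (by norm_num) _ _ dat5_0 (by decide +kernel)
    (okTable_sound _ _ _ _ _ ok5)

theorem cov6 : Cov 6 reps6 reps7 :=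
  cov_of 6 15 32 (by norm_num) (by norm_num) _ _ (dat6_0 ++ dat6_1) (by decide +kernel) (by
    intro e he
    rcases List.mem_append.mp he with h | h
    · exact okTable_sound _ _ _ _ _ ok6_0 e h
    · exact okTable_sound _ _ _ _ _ ok6_1 e h)

theorem cov7 : Cov 7 reps7 reps8 :=
  cov_of 7 21 64 (by norm_num) (by norm_num) _ _
    (dat7_0 ++ (dat7_1 ++ (dat7_2 ++ (dat7_3 ++ (dat7_4 ++ dat7_5))))) (by decide +kernel) (by
    intro e he
    rcases List.mem_append.mp he with h | he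
    · exact okTable_sound _ _ _ _ _ ok7_0 e h
    rcases List.mem_append.mp he with h | he
    · exact okTable_sound _ _ _ _ _ ok7_1 e h
    rcases List.mem_append.mp he with h | he
    · exact okTable_sound _ _ _ _ _ ok7_2 e h
    rcases List.mem_append.mp he with h | he
    · exact okTable_sound _ _ _ _ _ ok7_3 e h
    rcases List.mem_append.mp he with h | he
    · exact okTable_sound _ _ _ _ _ ok7_4 e h
    · exact okTable_sound _ _ _ _ _ ok7_5 e he)

theorem class8 (s : ℕ → ℕ → Bool) (hs : Sym s) :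
    ∃ t, Sym t ∧ Eqv s t ∧ ∃ r ∈ reps8, Agree 8 t r := by
  have h1 : ∃ r ∈ reps1, Agree 1 s r := by
    refine ⟨0, by decide, ?_⟩
    intro j hj i hi
    omega
  obtain ⟨t2, s2, e2, a2⟩ := level_step 1 _ _ (by norm_num) (by norm_num) cov1 s hs h1
  obtain ⟨t3, s3, e3, a3⟩ := level_step 2 _ _ (by norm_num) (by norm_num) cov2 t2 s2 a2
  obtain ⟨t4, s4, e4, a4⟩ := level_step 3 _ _ (by norm_num) (by norm_num) cov3 t3 s3 a3
  obtain ⟨t5, s5, e5, a5⟩ := level_step 4 _ _ (by norm_num) (by norm_num) cov4 t4 s4 a4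
  obtain ⟨t6, s6, e6, a6⟩ := level_step 5 _ _ (by norm_num) (by norm_num) cov5 t5 s5 a5
  obtain ⟨t7, s7, e7, a7⟩ := level_step 6 _ _ (by norm_num) (by norm_num) cov6 t6 s6 a6
  obtain ⟨t8, s8, e8, a8⟩ := level_step 7 _ _ (by norm_num) (by norm_num) cov7 t7 s7 a7
  exact ⟨t8, s8, ((((((e2.trans e3).trans e4).trans e5).trans e6).trans e7).trans e8), a8⟩

end Pool.Agent.Helper82_Met
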