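import Mathlib
import Pool.Agent.Helper82_Met.Step

/-!
# Sign functions on nine points with 36 positive triples have a kernel vector
-/

set_option autoImplicit false

namespace Pool.Agent.Helper82_Met

open Finset

/-- The triple is negative. -/
def neg3 (s : ℕ → ℕ → Bool) (x y z : ℕ) : Bool := s x y ^^ (s x z ^^ s y z)

/-- Indicator of positive triples. -/
def FF (s : ℕ → ℕ → Bool) (x y z : ℕ) : ℕ := if neg3 s x y z = true then 0 else 1

/-- Number of positive triples of nine points. -/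
def cnt (s : ℕ → ℕ → Bool) : ℕ :=
  ∑ k ∈ range 9, ∑ j ∈ range k, ∑ i ∈ range j, FF s i j k

/-- Ordered count. -/
def ordCnt (s : ℕ → ℕ → Bool) : ℕ :=
  ∑ x ∈ range 9, ∑ y ∈ range 9, ∑ z ∈ range 9,
    if x ≠ y ∧ x ≠ z ∧ y ≠ z then FF s x y z else 0

theorem FF_swap1 (s : ℕ → ℕ → Bool) (hs : Sym s) (x y z : ℕ) : FF s x y z = FF s y x z := by
  unfold FF neg3
  rw [hs y x]
  cases s x y <;> cases s x z <;> cases s y z <;> rfl

theorem FF_swap2 (s : ℕ → ℕ → Bool) (hs : Sym s) (x y z : ℕ) : FF s x y z = FF s x z y := by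
  unfold FF neg3
  rw [hs z y]
  cases s x y <;> cases s x z <;> cases s y z <;> rfl

/-- Sorted part. -/
def GG (s : ℕ → ℕ → Bool) (x y z : ℕ) : ℕ := if x < y ∧ y < z then FF s x y z else 0

theorem GG_sum (s : ℕ → ℕ → Bool) (hs : Sym s) (x y z : ℕ) :
    (if x ≠ y ∧ x ≠ z ∧ y ≠ z then FF s x y z else 0) =
      GG s x y z + GG s x z y + GG s y x z + GG s y z x + GG s z x y + GG s z y x := by
  have e1 : FF s x z y = FF s x y z := (FF_swap2 s hs x y z).symm
  have e2 : FF s y x z = FF s x y z := (FF_swap1 s hs x y z).symm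
  have e3 : FF s y z x = FF s x y z := by rw [← FF_swap2 s hs, e2]
  have e4 : FF s z x y = FF s x y z := by rw [← FF_swap1 s hs x z y, e1]
  have e5 : FF s z y x = FF s x y z := by rw [← FF_swap1 s hs y z x, e3]
  unfold GG
  rw [e1, e2, e3, e4, e5]
  by_cases h1 : x = y
  · subst h1
    rw [if_neg (by tauto)]
    repeat rw [if_neg (by omega)]
  by_cases h2 : x = z
  · subst h2
    rw [if_neg (by tauto)]
    repeat rw [if_neg (by omega)]
  by_cases h3 : y = z
  · subst h3
    rw [if_neg (by tauto)]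
    repeat rw [if_neg (by omega)]
  rw [if_pos ⟨h1, h2, h3⟩]
  rcases lt_or_gt_of_ne h1 with a | a <;> rcases lt_or_gt_of_ne h2 with b | b <;>
    rcases lt_or_gt_of_ne h3 with c | c <;>
    simp only [a, b, c, not_lt_of_gt a, not_lt_of_gt b, not_lt_of_gt c, and_true, and_false,
      true_and, false_and, if_true, if_false, Nat.add_zero, Nat.zero_add, and_self] <;>
    (try omega)

theorem sum_lt (n z : ℕ) (h : z ≤ n) (f : ℕ → ℕ) :
    (∑ y ∈ range n, if y < z then f y else 0) = ∑ y ∈ range z, f y := by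
  rw [← Finset.sum_filter]
  congr 1
  ext y
  simp only [mem_filter, mem_range]
  omega

theorem GG_cnt (s : ℕ → ℕ → Bool) :
    (∑ x ∈ range 9, ∑ y ∈ range 9, ∑ z ∈ range 9, GG s x y z) = cnt s := by
  have h1 : (∑ x ∈ range 9, ∑ y ∈ range 9, ∑ z ∈ range 9, GG s x y z) =
      ∑ z ∈ range 9, ∑ y ∈ range 9, ∑ x ∈ range 9, GG s x y z := by
    calc (∑ x ∈ range 9, ∑ y ∈ range 9, ∑ z ∈ range 9, GG s x y z)
        = ∑ x ∈ range 9, ∑ z ∈ range 9, ∑ y ∈ range 9, GG s x y z :=
          Finset.sum_congr rfl fun x _ => Finset.sum_comm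
      _ = ∑ z ∈ range 9, ∑ x ∈ range 9, ∑ y ∈ range 9, GG s x y z := Finset.sum_comm
      _ = _ := Finset.sum_congr rfl fun z _ => Finset.sum_comm
  rw [h1]
  unfold cnt
  refine Finset.sum_congr rfl fun z hz => ?_
  have hz9 : z ≤ 9 := (mem_range.mp hz).le
  rw [← sum_lt 9 z hz9 (fun y => ∑ i ∈ range y, FF s i y z)]
  refine Finset.sum_congr rfl fun y hy => ?_
  have hy9 : y ≤ 9 := (mem_range.mp hy).le
  split_ifs with h
  · rw [← sum_lt 9 y hy9 (fun i => FF s i y z)]
    refine Finset.sum_congr rfl fun x _ => ?_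
    unfold GG
    simp [h]
  · refine Finset.sum_eq_zero fun x _ => ?_
    unfold GG
    simp [h]

theorem ord_eq (s : ℕ → ℕ → Bool) (hs : Sym s) : ordCnt s = 6 * cnt s := by
  have h0 := GG_cnt s
  have h2 : (∑ x ∈ range 9, ∑ y ∈ range 9, ∑ z ∈ range 9, GG s x z y) = cnt s := by
    rw [← h0]
    exact Finset.sum_congr rfl fun x _ => Finset.sum_comm
  have h3 : (∑ x ∈ range 9, ∑ y ∈ range 9, ∑ z ∈ range 9, GG s y x z) = cnt s := by
    rw [← h0]
    exact Finset.sum_comm
  have h4 : (∑ x ∈ range 9, ∑ y ∈ range 9, ∑ z ∈ range 9, GG s y z x) = cnt s := by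
    rw [← h0]
    calc (∑ x ∈ range 9, ∑ y ∈ range 9, ∑ z ∈ range 9, GG s y z x)
        = ∑ y ∈ range 9, ∑ x ∈ range 9, ∑ z ∈ range 9, GG s y z x := Finset.sum_comm
      _ = _ := Finset.sum_congr rfl fun y _ => Finset.sum_comm
  have h5 : (∑ x ∈ range 9, ∑ y ∈ range 9, ∑ z ∈ range 9, GG s z x y) = cnt s := by
    rw [← h0]
    calc (∑ x ∈ range 9, ∑ y ∈ range 9, ∑ z ∈ range 9, GG s z x y)
        = ∑ x ∈ range 9, ∑ z ∈ range 9, ∑ y ∈ range 9, GG s z x y :=
          Finset.sum_congr rfl fun x _ => Finset.sum_comm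
      _ = _ := Finset.sum_comm
  have h6 : (∑ x ∈ range 9, ∑ y ∈ range 9, ∑ z ∈ range 9, GG s z y x) = cnt s := by
    rw [← h0]
    calc (∑ x ∈ range 9, ∑ y ∈ range 9, ∑ z ∈ range 9, GG s z y x)
        = ∑ y ∈ range 9, ∑ x ∈ range 9, ∑ z ∈ range 9, GG s z y x := Finset.sum_comm
      _ = ∑ y ∈ range 9, ∑ z ∈ range 9, ∑ x ∈ range 9, GG s z y x :=
          Finset.sum_congr rfl fun y _ => Finset.sum_comm
      _ = _ := Finset.sum_comm
  unfold ordCnt
  simp only [GG_sum s hs, Finset.sum_add_distrib]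
  rw [h0, h2, h3, h4, h5, h6]
  ring

theorem reindex (q : ℕ → ℕ) (hq : ∀ x < 9, q x < 9)
    (hi : ∀ x < 9, ∀ y < 9, q x = q y → x = y) (h : ℕ → ℕ) :
    (∑ x ∈ range 9, h (q x)) = ∑ x ∈ range 9, h x := by
  have hinj : Set.InjOn q (range 9 : Set ℕ) := by
    intro x hx y hy hxy
    exact hi x (by simpa using hx) y (by simpa using hy) hxy
  have himg : (range 9).image q = range 9 := by
    apply Finset.eq_of_subset_of_card_le
    · intro y hy
      obtain ⟨x, hx, rfl⟩ := Finset.mem_image.mp hy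
      exact mem_range.mpr (hq x (mem_range.mp hx))
    · rw [Finset.card_image_of_injOn hinj]
  conv_rhs => rw [← himg]
  rw [Finset.sum_image hinj]

theorem neg3_eqv {s t : ℕ → ℕ → Bool} {q : ℕ → ℕ} {g : ℕ → Bool}
    (he : ∀ x < 9, ∀ y < 9, x ≠ y → t x y = (s (q x) (q y) ^^ (g x ^^ g y)))
    {x y z : ℕ} (hx : x < 9) (hy : y < 9) (hz : z < 9) (h1 : x ≠ y) (h2 : x ≠ z) (h3 : y ≠ z) :
    neg3 t x y z = neg3 s (q x) (q y) (q z) := by
  unfold neg3
  rw [he x hx y hy h1, he x hx z hz h2, he y hy z hz h3]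
  cases s (q x) (q y) <;> cases s (q x) (q z) <;> cases s (q y) (q z) <;> cases g x <;>
    cases g y <;> cases g z <;> rfl

theorem ord_inv (s t : ℕ → ℕ → Bool) (h : Eqv s t) : ordCnt t = ordCnt s := by
  obtain ⟨q, g, hq, hi, he⟩ := h
  symm
  unfold ordCnt
  rw [← reindex q hq hi]
  refine Finset.sum_congr rfl fun x hx => ?_
  rw [← reindex q hq hi]
  refine Finset.sum_congr rfl fun y hy => ?_
  rw [← reindex q hq hi]
  refine Finset.sum_congr rfl fun z hz => ?_
  have hx9 := mem_range.mp hx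
  have hy9 := mem_range.mp hy
  have hz9 := mem_range.mp hz
  by_cases hd : x ≠ y ∧ x ≠ z ∧ y ≠ z
  · have hd' : q x ≠ q y ∧ q x ≠ q z ∧ q y ≠ q z :=
      ⟨fun h => hd.1 (hi x hx9 y hy9 h), fun h => hd.2.1 (hi x hx9 z hz9 h),
        fun h => hd.2.2 (hi y hy9 z hz9 h)⟩
    rw [if_pos hd, if_pos hd']
    unfold FF
    rw [neg3_eqv he hx9 hy9 hz9 hd.1 hd.2.1 hd.2.2]
  · have hd' : ¬ (q x ≠ q y ∧ q x ≠ q z ∧ q y ≠ q z) := by
      intro h
      exact hd ⟨fun h' => h.1 (by rw [h']), fun h' => h.2.1 (by rw [h']),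
        fun h' => h.2.2 (by rw [h'])⟩
    rw [if_neg hd, if_neg hd']

theorem cnt_inv (s t : ℕ → ℕ → Bool) (hs : Sym s) (ht : Sym t) (h : Eqv s t) :
    cnt t = cnt s := by
  have h1 := ord_inv s t h
  rw [ord_eq s hs, ord_eq t ht] at h1
  omega

/-! ### The count of an extension -/

theorem PT_eq : ∀ u < 128, Nat.mod (Nat.shiftRight PT (Nat.mul 3 u)) 8 =
    sumTo (fun p => Bool.toNat (u.testBit p)) 7 := by
  decide +kernel

theorem TT_eq : ∀ m < 128, ∀ j < 8, ∀ i < j,
    (TT' m).testBit (tri i j) = ((2 * m).testBit i ^^ (2 * m).testBit j) := by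
  decide +kernel

theorem pc28_eq (X : ℕ) : pc28 X = ∑ p ∈ range 28, Bool.toNat (X.testBit p) := by
  have h : ∀ v, Nat.mod (Nat.shiftRight PT (Nat.mul 3 (Nat.mod (Nat.shiftRight X v) 128))) 8 =
      ∑ p ∈ range 7, Bool.toNat (X.testBit (v + p)) := by
    intro v
    have h1 : Nat.mod (Nat.shiftRight X v) 128 < 128 := Nat.mod_lt _ (by norm_num)
    rw [PT_eq _ h1, sumTo_eq]
    refine Finset.sum_congr rfl fun p hp => ?_
    have hp7 := mem_range.mp hp
    congr 1
    show ((X >>> v) % 2 ^ 7).testBit p = _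
    rw [Nat.testBit_mod_two_pow, Nat.testBit_shiftRight]
    simp [hp7]
  have h0 : Nat.mod (Nat.shiftRight PT (Nat.mul 3 (Nat.mod X 128))) 8 =
      ∑ p ∈ range 7, Bool.toNat (X.testBit (0 + p)) := h 0
  have hadd : ∀ a b : ℕ, Nat.add a b = a + b := fun _ _ => rfl
  unfold pc28
  rw [h0, h 7, h 14, h 21]
  simp only [Finset.sum_range_succ, Finset.sum_range_zero, hadd]
  norm_num
  ring

theorem pairs28 (f : ℕ → ℕ) :
    (∑ j ∈ range 8, ∑ i ∈ range j, f (tri i j)) = ∑ p ∈ range 28, f p := by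
  have htri : ∀ i j, tri i j = j * (j - 1) / 2 + i := fun _ _ => rfl
  simp only [Finset.sum_range_succ, Finset.sum_range_zero, htri]
  norm_num
  ring

theorem posCount_eq (n c : ℕ) (t : ℕ → ℕ → Bool) (hA : Agree n t c) :
    posCount n c = ∑ k ∈ range n, ∑ j ∈ range k, ∑ i ∈ range j, FF t i j k := by
  unfold posCount
  rw [sumTo_eq]
  refine Finset.sum_congr rfl fun k hk => ?_
  rw [sumTo_eq]
  refine Finset.sum_congr rfl fun j hj => ?_
  rw [sumTo_eq]
  refine Finset.sum_congr rfl fun i hi => ?_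
  have hk' := mem_range.mp hk
  have hj' := mem_range.mp hj
  have hi' := mem_range.mp hi
  unfold FF neg3
  rw [hA j (lt_trans hj' hk') i hi', hA k hk' i (lt_trans hi' hj'), hA k hk' j hj']
  rw [testBit_eq, testBit_eq, testBit_eq]
  show 1 - par3 c i j k = _
  have hp : par3 c i j k = (Nat.shiftRight c (tri i j) + (Nat.shiftRight c (tri i k) +
    Nat.shiftRight c (tri j k))) % 2 := rfl
  rw [hp]
  generalize Nat.shiftRight c (tri i j) = a
  generalize Nat.shiftRight c (tri i k) = b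
  generalize Nat.shiftRight c (tri j k) = d
  rcases Nat.mod_two_eq_zero_or_one a with ha | ha <;>
  rcases Nat.mod_two_eq_zero_or_one b with hb | hb <;>
  rcases Nat.mod_two_eq_zero_or_one d with hd | hd <;>
  simp [ha, hb, hd, Nat.add_mod]

theorem cnt_ext (r m : ℕ) (hr : r < 2 ^ 28) (hm : m < 128) (t : ℕ → ℕ → Bool)
    (hA : Agree 9 t (r + m * 2 ^ 29)) :
    cnt t + pc28 (Nat.xor r (TT' m)) = posCount 8 r + 28 := by
  have hc : r + m * 2 ^ 29 = 2 ^ 28 * (2 * m) + r := by ring
  have hb : ∀ e, e < 28 → (r + m * 2 ^ 29).testBit e = r.testBit e := by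
    intro e he
    rw [hc, Nat.testBit_two_pow_mul_add _ hr, if_pos he]
  have hb8 : ∀ i, (r + m * 2 ^ 29).testBit (tri i 8) = (2 * m).testBit i := by
    intro i
    rw [hc, Nat.testBit_two_pow_mul_add _ hr]
    have h1 : ¬ tri i 8 < 28 := by
      show ¬ 28 + i < 28
      omega
    rw [if_neg h1]
    congr 1
    show 28 + i - 28 = i
    omega
  have htri : ∀ j < 8, ∀ i < j, tri i j < 28 := by decide
  have hA8 : Agree 8 t r := by
    intro j hj i hi
    rw [hA j (by omega) i hi, hb _ (htri j hj i hi)]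
  rw [posCount_eq 8 r t hA8]
  unfold cnt
  rw [Finset.sum_range_succ, add_assoc]
  congr 1
  have h2 : ∀ j ∈ range 8, ∀ i ∈ range j,
      FF t i j 8 = 1 - Bool.toNat ((Nat.xor r (TT' m)).testBit (tri i j)) := by
    intro j hj i hi
    have hj' := mem_range.mp hj
    have hi' := mem_range.mp hi
    unfold FF neg3
    rw [hA8 j hj' i hi', hA 8 (by norm_num) i (by omega), hA 8 (by norm_num) j hj', hb8, hb8]
    rw [← TT_eq m hm j hj' i hi']
    rw [show Nat.xor r (TT' m) = r ^^^ TT' m from rfl, Nat.testBit_xor]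
    cases (r.testBit (tri i j) ^^ (TT' m).testBit (tri i j)) <;> rfl
  rw [Finset.sum_congr rfl fun j hj => Finset.sum_congr rfl (h2 j hj)]
  rw [pairs28 (fun p => 1 - Bool.toNat ((Nat.xor r (TT' m)).testBit p)), pc28_eq,
    ← Finset.sum_add_distrib]
  have h3 : ∀ p ∈ range 28, (1 - Bool.toNat ((Nat.xor r (TT' m)).testBit p) +
      Bool.toNat ((Nat.xor r (TT' m)).testBit p)) = 1 := by
    intro p _
    cases (Nat.xor r (TT' m)).testBit p <;> rfl
  rw [Finset.sum_congr rfl h3]
  simp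

/-! ### The final certificates -/

theorem mulshift (r m k : ℕ) :
    Nat.add r (Nat.mul m (Nat.shiftLeft 2 k)) = r + m * 2 ^ (k + 1) := by
  show r + m * (2 <<< k) = _
  rw [Nat.shiftLeft_eq, pow_succ]
  ring

theorem pow29 (r m : ℕ) : r + m * 2 ^ (28 + 1) = r + m * 2 ^ 29 := by
  norm_num

theorem srch_sound (r m : ℕ) (L : List (ℕ × ℕ)) (h : srch r m L = true) :
    ∃ Y, okY (r + m * 2 ^ 29) Y = true ∧ nzY Y = true := by
  induction L with
  | nil => simp [srch] at h
  | cons e L ih =>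
    have h' : srch r m (e :: L) = cond (Nat.beq e.1 m)
      (cond (okY (Nat.add r (Nat.mul m (Nat.shiftLeft 2 28))) e.2) (nzY e.2) false)
      (srch r m L) := rfl
    rw [h'] at h
    cases hb : Nat.beq e.1 m with
    | false => rw [hb, Bool.cond_false] at h; exact ih h
    | true =>
      rw [hb, Bool.cond_true] at h
      obtain ⟨h1, h2⟩ := cond_split h
      rw [mulshift r m 28, pow29] at h1
      exact ⟨e.2, h1, h2⟩

theorem okFin_sound (D : List (ℕ × List (ℕ × ℕ))) (h : okFin D = true) : ∀ e ∈ D,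
    ∀ m < 128, pc28 (Nat.xor e.1 (TT' m)) + 8 = posCount 8 e.1 →
      ∃ Y, okY (e.1 + m * 2 ^ 29) Y = true ∧ nzY Y = true := by
  induction D with
  | nil => intro e he; simp at he
  | cons a D ih =>
    have h' : okFin (a :: D) = cond (okExt a.1 (posCount 8 a.1) a.2) (okFin D) false := rfl
    rw [h'] at h
    obtain ⟨ha, h⟩ := cond_split h
    intro e he
    rcases List.mem_cons.mp he with h1 | h1
    · subst h1
      intro m hm hP
      unfold okExt at ha
      rw [allTo_iff] at ha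
      have h2 := ha m hm
      have h3 : Nat.beq (Nat.add (pc28 (Nat.xor e.1 (TT' m))) 8) (posCount 8 e.1) = true := by
        rw [Nat.beq_eq]
        exact hP
      rw [h3, Bool.cond_true] at h2
      exact srch_sound _ _ _ h2
    · exact ih h e h1

theorem fin_all : ∀ r ∈ reps8, ∀ m < 128, pc28 (Nat.xor r (TT' m)) + 8 = posCount 8 r →
      ∃ Y, okY (r + m * 2 ^ 29) Y = true ∧ nzY Y = true := by
  intro r hr
  have h : (fin_0 ++ (fin_1 ++ (fin_2 ++ (fin_3 ++ (fin_4 ++ fin_5))))).map Prod.fst = reps8 := by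
    decide +kernel
  rw [← h] at hr
  obtain ⟨e, he, rfl⟩ := List.mem_map.mp hr
  rcases List.mem_append.mp he with h | he
  · exact okFin_sound _ okf_0 e h
  rcases List.mem_append.mp he with h | he
  · exact okFin_sound _ okf_1 e h
  rcases List.mem_append.mp he with h | he
  · exact okFin_sound _ okf_2 e h
  rcases List.mem_append.mp he with h | he
  · exact okFin_sound _ okf_3 e h
  rcases List.mem_append.mp he with h | he
  · exact okFin_sound _ okf_4 e h
  · exact okFin_sound _ okf_5 e he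

theorem reps8_lt : ∀ r ∈ reps8, r < 2 ^ 28 := by
  decide +kernel

/-- Digit of the kernel vector. -/
def ydig (Y e : ℕ) : ℤ := (Nat.mod (Nat.shiftRight Y (Nat.mul 3 e)) 8 : ℕ) - 2

/-- The kernel vector. -/
def yv (Y i j : ℕ) : ℤ := ydig Y (tri (min i j) (max i j))

theorem yv_symm (Y i j : ℕ) : yv Y i j = yv Y j i := by
  unfold yv
  rw [min_comm, max_comm]

theorem okY_sound (c Y : ℕ) (t : ℕ → ℕ → Bool) (hA : Agree 9 t c) (h : okY c Y = true) :
    ∀ k < 9, ∀ j < k, ∀ i < j, neg3 t i j k = false →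
      yv Y i j + yv Y i k + yv Y j k = 0 := by
  intro k hk j hj i hi hneg
  unfold okY at h
  rw [allTo_iff] at h
  have h1 := h k hk
  rw [allTo_iff] at h1
  have h2 := h1 j hj
  rw [allTo_iff] at h2
  have h3 := h2 i hi
  have hpar : Nat.beq (par3 c i j k) 1 = false := by
    unfold neg3 at hneg
    rw [hA j (lt_trans hj hk) i hi, hA k hk i (lt_trans hi hj), hA k hk j hj] at hneg
    rw [testBit_eq, testBit_eq, testBit_eq] at hneg
    have hp : par3 c i j k = (Nat.shiftRight c (tri i j) + (Nat.shiftRight c (tri i k) +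
      Nat.shiftRight c (tri j k))) % 2 := rfl
    have hp0 : (Nat.shiftRight c (tri i j) + (Nat.shiftRight c (tri i k) +
      Nat.shiftRight c (tri j k))) % 2 = 0 := by
      revert hneg
      generalize Nat.shiftRight c (tri i j) = a
      generalize Nat.shiftRight c (tri i k) = b
      generalize Nat.shiftRight c (tri j k) = d
      intro hneg
      rcases Nat.mod_two_eq_zero_or_one a with ha | ha <;>
      rcases Nat.mod_two_eq_zero_or_one b with hb | hb <;>
      rcases Nat.mod_two_eq_zero_or_one d with hd | hd <;>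
      simp [ha, hb, hd] at hneg <;> omega
    rw [hp, hp0]
    rfl
  rw [hpar, Bool.cond_false] at h3
  have h4 := Nat.eq_of_beq_eq_true h3
  unfold yv ydig
  rw [min_eq_left hi.le, max_eq_right hi.le, min_eq_left (lt_trans hi hj).le,
    max_eq_right (lt_trans hi hj).le, min_eq_left hj.le, max_eq_right hj.le]
  have h5 : (Nat.mod (Nat.shiftRight Y (Nat.mul 3 (tri i j))) 8 +
      (Nat.mod (Nat.shiftRight Y (Nat.mul 3 (tri i k))) 8 +
        Nat.mod (Nat.shiftRight Y (Nat.mul 3 (tri j k))) 8)) = 6 := h4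
  omega

theorem nzY_sound (Y : ℕ) (h : nzY Y = true) : ∃ j < 9, ∃ i < j, yv Y i j ≠ 0 := by
  unfold nzY at h
  have h1 : allTo (fun e => Nat.beq (Nat.mod (Nat.shiftRight Y (Nat.mul 3 e)) 8) 2) 36
      = false := by
    cases hb : allTo (fun e => Nat.beq (Nat.mod (Nat.shiftRight Y (Nat.mul 3 e)) 8) 2) 36 with
    | false => rfl
    | true => rw [hb] at h; simp at h
  have h2 : ¬ ∀ e < 36, Nat.beq (Nat.mod (Nat.shiftRight Y (Nat.mul 3 e)) 8) 2 = true := by
    intro h3
    rw [(allTo_iff _ _).mpr h3] at h1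
    simp at h1
  push Not at h2
  obtain ⟨e, he, h3⟩ := h2
  have h4 : ∀ e < 36, ∃ j < 9, ∃ i < j, tri i j = e := by decide
  obtain ⟨j, hj, i, hi, rfl⟩ := h4 e he
  refine ⟨j, hj, i, hi, ?_⟩
  unfold yv ydig
  rw [min_eq_left hi.le, max_eq_right hi.le]
  intro h5
  apply h3
  rw [Nat.beq_eq]
  omega

/-- The finite statement: a symmetric sign function on nine points with exactly `36` positive
triples has a nonzero vector on the pairs which sums to zero on every positive triple. -/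
theorem nine (s : ℕ → ℕ → Bool) (hs : Sym s) (hc : cnt s = 36) :
    ∃ y : ℕ → ℕ → ℤ, (∀ i j, y i j = y j i) ∧ (∃ j < 9, ∃ i < 9, i ≠ j ∧ y i j ≠ 0) ∧
      ∀ i < 9, ∀ j < 9, ∀ k < 9, i ≠ j → i ≠ k → j ≠ k → neg3 s i j k = false →
        y i j + y i k + y j k = 0 := by
  obtain ⟨t, ht, he, r, hr, hA⟩ := class8 s hs
  obtain ⟨t', ht', he', m, hm, hA'⟩ :=
    normalize 8 r (by norm_num) (by norm_num) (reps8_lt r hr) t ht hA
  have hm' : m < 128 := hm
  have hA9 : Agree 9 t' (r + m * 2 ^ 29) := hA'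
  have hE : Eqv s t' := he.trans he'
  have hcnt : cnt t' = 36 := by rw [cnt_inv s t' hs ht' hE, hc]
  have h1 := cnt_ext r m (reps8_lt r hr) hm' t' hA9
  obtain ⟨Y, hY, hnz⟩ := fin_all r hr m hm' (by omega)
  obtain ⟨j0, hj0, i0, hi0, hne⟩ := nzY_sound Y hnz
  have hsort := okY_sound _ Y t' hA9 hY
  -- all orders
  have hall : ∀ x < 9, ∀ y < 9, ∀ z < 9, x ≠ y → x ≠ z → y ≠ z → neg3 t' x y z = false →
      yv Y x y + yv Y x z + yv Y y z = 0 := by
    intro x hx y hy z hz hxy hxz hyz hneg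
    have n1 : neg3 t' y x z = neg3 t' x y z := by
      unfold neg3; rw [ht' y x]
      cases t' x y <;> cases t' x z <;> cases t' y z <;> rfl
    have n2 : neg3 t' x z y = neg3 t' x y z := by
      unfold neg3; rw [ht' z y]
      cases t' x y <;> cases t' x z <;> cases t' y z <;> rfl
    have n3 : neg3 t' y z x = neg3 t' x y z := by
      unfold neg3; rw [ht' y x, ht' z x]
      cases t' x y <;> cases t' x z <;> cases t' y z <;> rfl
    have n4 : neg3 t' z x y = neg3 t' x y z := by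
      unfold neg3; rw [ht' z x, ht' z y]
      cases t' x y <;> cases t' x z <;> cases t' y z <;> rfl
    have n5 : neg3 t' z y x = neg3 t' x y z := by
      unfold neg3; rw [ht' z x, ht' z y, ht' y x]
      cases t' x y <;> cases t' x z <;> cases t' y z <;> rfl
    have s1 := yv_symm Y x y
    have s2 := yv_symm Y x z
    have s3 := yv_symm Y y z
    rcases lt_or_gt_of_ne hxy with a | a <;> rcases lt_or_gt_of_ne hxz with b | b <;>
      rcases lt_or_gt_of_ne hyz with c | c
    · exact hsort z hz y c x a hneg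
    · have := hsort y hy z c x b (n2.trans hneg); omega
    · omega
    · have := hsort y hy x a z b (n4.trans hneg); omega
    · have := hsort z hz x b y a (n1.trans hneg); omega
    · omega
    · have := hsort x hx z b y c (n3.trans hneg); omega
    · have := hsort x hx y a z c (n5.trans hneg); omega
  obtain ⟨q, g, hq, hi, hrel⟩ := hE
  -- inverse of q
  have hsurj : ∀ i < 9, ∃ x, x < 9 ∧ q x = i := by
    intro i hi9
    have hinj : Set.InjOn q (range 9 : Set ℕ) := by
      intro x hx y hy hxy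
      exact hi x (by simpa using hx) y (by simpa using hy) hxy
    have himg : (range 9).image q = range 9 := by
      apply Finset.eq_of_subset_of_card_le
      · intro y hy
        obtain ⟨x, hx, rfl⟩ := Finset.mem_image.mp hy
        exact mem_range.mpr (hq x (mem_range.mp hx))
      · rw [Finset.card_image_of_injOn hinj]
    have h2 : i ∈ (range 9).image q := by rw [himg]; exact mem_range.mpr hi9
    obtain ⟨x, hx, hxi⟩ := Finset.mem_image.mp h2
    exact ⟨x, mem_range.mp hx, hxi⟩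
  choose! p hp9 hpq using hsurj
  refine ⟨fun i j => yv Y (p i) (p j), fun i j => yv_symm Y _ _, ?_, ?_⟩
  · refine ⟨q j0, hq j0 hj0, q i0, hq i0 (by omega), ?_, ?_⟩
    · intro h
      have := hi i0 (by omega) j0 hj0 h
      omega
    · have e1 : p (q i0) = i0 :=
        hi _ (hp9 _ (hq i0 (by omega))) _ (by omega) (hpq _ (hq i0 (by omega)))
      have e2 : p (q j0) = j0 := hi _ (hp9 _ (hq j0 hj0)) _ hj0 (hpq _ (hq j0 hj0))
      show yv Y (p (q i0)) (p (q j0)) ≠ 0
      rw [e1, e2]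
      exact hne
  · intro i hi9 j hj9 k hk9 hij hik hjk hneg
    have a1 : p i ≠ p j := fun h => hij (by rw [← hpq i hi9, ← hpq j hj9, h])
    have a2 : p i ≠ p k := fun h => hik (by rw [← hpq i hi9, ← hpq k hk9, h])
    have a3 : p j ≠ p k := fun h => hjk (by rw [← hpq j hj9, ← hpq k hk9, h])
    refine hall _ (hp9 i hi9) _ (hp9 j hj9) _ (hp9 k hk9) a1 a2 a3 ?_
    rw [neg3_eqv hrel (hp9 i hi9) (hp9 j hj9) (hp9 k hk9) a1 a2 a3, hpq i hi9, hpq j hj9,
      hpq k hk9]
    exact hneg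

end Pool.Agent.Helper82_Met
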