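import Mathlib
import Pool.Agent.Helper82_Met.Defs
import Pool.Agent.Helper82_Met.Geo
import Pool.Agent.Helper82_Met.Nine

/-!
# Vertices of the metric polytope on nine points
-/

set_option autoImplicit false

namespace Pool.Agent.Helper82_Met

open Finset

variable {n : ℕ}

/-- Centred coordinates. -/
def cen (v : Pair n → ℝ) : Pair n → ℝ := fun e => 2 * v e - 1

theorem mem_iff (v : Pair n → ℝ) : v ∈ metricPolytope n ↔ ∀ p, lin p (cen v) ≤ 1 := by
  constructor
  · intro h p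
    have h1 := h p.1 p.2
    rw [slack_eq] at h1
    show lin p (fun e => 2 * v e - 1) ≤ 1
    linarith
  · intro h t κ
    rw [slack_eq (t, κ)]
    have h1 := h (t, κ)
    change lin (t, κ) (fun e => 2 * v e - 1) ≤ 1 at h1
    linarith

theorem tight_iff (v : Pair n → ℝ) (p : Triple n × Fin 4) :
    slack p.1 p.2 v = 0 ↔ lin p (cen v) = 1 := by
  rw [slack_eq]
  show (1 - lin p (cen v)) / 2 = 0 ↔ _
  constructor
  · intro h; linarith
  · intro h; rw [h]; norm_num

theorem cen_add (v y : Pair n → ℝ) (ε : ℝ) (p : Triple n × Fin 4) :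
    lin p (cen (fun e => v e + ε / 2 * y e)) = lin p (cen v) + ε * lin p y := by
  rw [lin_apply, lin_apply, lin_apply]
  unfold cen
  ring

/-- Only the zero vector is orthogonal to all tight inequalities of a vertex. -/
theorem vertex_inj (v : Pair n → ℝ) (hv : v ∈ (metricPolytope n).extremePoints ℝ)
    (y : Pair n → ℝ) (hy : ∀ p, lin p (cen v) = 1 → lin p y = 0) : y = 0 := by
  obtain ⟨hvm, hext⟩ := mem_extremePoints.mp hv
  rw [mem_iff] at hvm
  have hev : ∀ᶠ ε in nhds (0 : ℝ), ∀ p : Triple n × Fin 4, lin p (cen v) + ε * lin p y ≤ 1 := by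
    rw [Filter.eventually_all]
    intro p
    by_cases hp : lin p (cen v) = 1
    · rw [hy p hp, hp]
      exact Filter.Eventually.of_forall fun ε => by simp
    · have hlt : lin p (cen v) < 1 := lt_of_le_of_ne (hvm p) hp
      have hc : Filter.Tendsto (fun ε : ℝ => lin p (cen v) + ε * lin p y) (nhds 0)
          (nhds (lin p (cen v) + 0 * lin p y)) := by
        apply Continuous.tendsto
        fun_prop
      rw [zero_mul, add_zero] at hc
      exact (hc.eventually_lt_const hlt).mono fun ε h => h.le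
  obtain ⟨δ, hδ, hb⟩ := Metric.eventually_nhds_iff.mp hev
  have h1 := hb (show dist (δ / 2) 0 < δ by
    rw [Real.dist_eq, sub_zero, abs_of_pos (by linarith)]; linarith)
  have h2 := hb (show dist (-(δ / 2)) 0 < δ by
    rw [Real.dist_eq, sub_zero, abs_neg, abs_of_pos (by linarith)]; linarith)
  have m1 : (fun e => v e + (δ / 2) / 2 * y e) ∈ metricPolytope n := by
    rw [mem_iff]
    intro p
    rw [cen_add]
    exact h1 p
  have m2 : (fun e => v e + (-(δ / 2)) / 2 * y e) ∈ metricPolytope n := by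
    rw [mem_iff]
    intro p
    rw [cen_add]
    exact h2 p
  have hseg : v ∈ openSegment ℝ (fun e => v e + (δ / 2) / 2 * y e)
      (fun e => v e + (-(δ / 2)) / 2 * y e) := by
    refine ⟨1 / 2, 1 / 2, by norm_num, by norm_num, by norm_num, ?_⟩
    ext e
    simp only [Pi.add_apply, Pi.smul_apply, smul_eq_mul]
    ring
  have h3 := (hext _ m1 _ m2 hseg).1
  ext e
  have h4 := congrFun h3 e
  simp only [Pi.zero_apply] at h4 ⊢
  have h5 : δ / 2 / 2 * y e = 0 := by linarith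
  rcases mul_eq_zero.mp h5 with h6 | h6
  · linarith
  · exact h6

/-- The set of tight inequalities. -/
noncomputable def tightSet (v : Pair n → ℝ) : Finset (Triple n × Fin 4) := by
  classical
  exact Finset.univ.filter fun p => lin p (cen v) = 1

theorem mem_tightSet (v : Pair n → ℝ) (p : Triple n × Fin 4) :
    p ∈ tightSet v ↔ lin p (cen v) = 1 := by
  unfold tightSet
  simp

theorem incidence_eq (v : Pair n → ℝ) : incidence v = (tightSet v).card := by
  unfold incidence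
  rw [← Set.ncard_coe_finset]
  congr 1
  ext p
  simp only [Set.mem_setOf_eq, Finset.mem_coe, mem_tightSet]
  exact tight_iff v p

/-- Evaluation of the tight inequalities. -/
noncomputable def evalMap (v : Pair n → ℝ) : (Pair n → ℝ) →ₗ[ℝ] (tightSet v → ℝ) :=
  LinearMap.pi fun p => lin p.1

theorem evalMap_inj (v : Pair n → ℝ) (hv : v ∈ (metricPolytope n).extremePoints ℝ) :
    Function.Injective (evalMap v) := by
  rw [injective_iff_map_eq_zero]
  intro y hy
  apply vertex_inj v hv y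
  intro p hp
  have := congrFun hy ⟨p, (mem_tightSet v p).mpr hp⟩
  simpa [evalMap] using this

theorem card_le (v : Pair n → ℝ) (hv : v ∈ (metricPolytope n).extremePoints ℝ) :
    Fintype.card (Pair n) ≤ incidence v := by
  have h1 := LinearMap.finrank_le_finrank_of_injective (evalMap_inj v hv)
  rw [Module.finrank_fintype_fun_eq_card, Module.finrank_fintype_fun_eq_card] at h1
  rw [incidence_eq]
  simpa using h1

theorem vertex_indep (v : Pair n → ℝ) (hv : v ∈ (metricPolytope n).extremePoints ℝ)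
    (hc : incidence v = Fintype.card (Pair n)) (p : Triple n × Fin 4) (hp : lin p (cen v) = 1) :
    ∃ y, lin p y = 1 ∧ ∀ p', lin p' (cen v) = 1 → p' ≠ p → lin p' y = 0 := by
  classical
  have hfin : Module.finrank ℝ (Pair n → ℝ) = Module.finrank ℝ (tightSet v → ℝ) := by
    rw [Module.finrank_fintype_fun_eq_card, Module.finrank_fintype_fun_eq_card, ← hc,
      incidence_eq]
    simp
  have hsurj : Function.Surjective (evalMap v) :=
    (LinearMap.injective_iff_surjective_of_finrank_eq_finrank hfin).mp (evalMap_inj v hv)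
  have hpm : p ∈ tightSet v := (mem_tightSet v p).mpr hp
  obtain ⟨y, hy⟩ := hsurj (Pi.single ⟨p, hpm⟩ 1)
  refine ⟨y, ?_, fun p' hp' hne => ?_⟩
  · have := congrFun hy ⟨p, hpm⟩
    simpa [evalMap] using this
  · have hpm' : p' ∈ tightSet v := (mem_tightSet v p').mpr hp'
    have := congrFun hy ⟨p', hpm'⟩
    rw [Pi.single_eq_of_ne (by
      intro h
      exact hne (congrArg Subtype.val h))] at this
    simpa [evalMap] using this

/-- Centred coordinates of a simple vertex. -/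
theorem simple_third (hn : 4 ≤ n) (v : Pair n → ℝ)
    (hv : v ∈ (metricPolytope n).extremePoints ℝ) (hc : incidence v = Fintype.card (Pair n)) :
    ∃ σ : Pair n → ℝ, (∀ e, Sg (σ e)) ∧ ∀ e, cen v e = σ e / 3 :=
  third (cen v) ((mem_iff v).mp (mem_extremePoints.mp hv).1)
    (fun p hp => vertex_indep v hv hc p hp) hn (vertex_inj v hv)

/-- Every simple vertex of the metric polytope on at least four points is
`{1/3, 2/3}`-valued. -/
theorem simple_valued (hn : 4 ≤ n) (v : Pair n → ℝ)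
    (hv : v ∈ (metricPolytope n).extremePoints ℝ) (hc : incidence v = Fintype.card (Pair n))
    (e : Pair n) : v e = 1 / 3 ∨ v e = 2 / 3 := by
  obtain ⟨σ, hσ, h⟩ := simple_third hn v hv hc
  have h1 := h e
  unfold cen at h1
  rcases hσ e with h2 | h2
  · right; rw [h2] at h1; linarith
  · left; rw [h2] at h1; linarith

/-! ### Nine points -/

/-- The sign function of a vector of signs. -/
noncomputable def sgn9 (σ : Pair 9 → ℝ) (i j : ℕ) : Bool := by
  classical
  exact if h : i < 9 ∧ j < 9 then decide (co σ ⟨i, h.1⟩ ⟨j, h.2⟩ < 0) else false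

theorem sgn9_sym (σ : Pair 9 → ℝ) : Sym (sgn9 σ) := by
  intro i j
  unfold sgn9
  by_cases h : i < 9 ∧ j < 9
  · have h' : j < 9 ∧ i < 9 := ⟨h.2, h.1⟩
    rw [dif_pos h, dif_pos h', co_symm]
  · have h' : ¬ (j < 9 ∧ i < 9) := fun h2 => h ⟨h2.2, h2.1⟩
    rw [dif_neg h, dif_neg h']

theorem sgn9_pair (σ : Pair 9 → ℝ) (e : Pair 9) :
    sgn9 σ e.1.1 e.1.2 = true ↔ σ e < 0 := by
  unfold sgn9
  rw [dif_pos ⟨e.1.1.2, e.1.2.2⟩]
  have h : co σ ⟨e.1.1, e.1.1.2⟩ ⟨e.1.2, e.1.2.2⟩ = σ e := co_lt σ e.2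
  rw [h]
  simp

theorem sgn9_pos (σ : Pair 9 → ℝ) (e : Pair 9) (h : σ e = 1) :
    sgn9 σ e.1.1 e.1.2 = false := by
  rw [Bool.eq_false_iff]
  intro h1
  rw [sgn9_pair, h] at h1
  norm_num at h1

theorem sgn9_neg (σ : Pair 9 → ℝ) (e : Pair 9) (h : σ e = -1) :
    sgn9 σ e.1.1 e.1.2 = true := by
  rw [sgn9_pair, h]
  norm_num

theorem sgn9_cases (σ : Pair 9 → ℝ) (hσ : ∀ e, Sg (σ e)) (e : Pair 9) :
    (σ e = 1 ∧ sgn9 σ e.1.1 e.1.2 = false) ∨ (σ e = -1 ∧ sgn9 σ e.1.1 e.1.2 = true) := by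
  rcases hσ e with h | h
  · exact Or.inl ⟨h, sgn9_pos σ e h⟩
  · exact Or.inr ⟨h, sgn9_neg σ e h⟩

theorem triple_count (σ : Pair 9 → ℝ) (hσ : ∀ e, Sg (σ e)) (Z : Pair 9 → ℝ)
    (hZ : ∀ e, Z e = σ e / 3) (t : Triple 9) [DecidablePred fun κ : Fin 4 => lin (t, κ) Z = 1] :
    (∑ κ : Fin 4, if lin (t, κ) Z = 1 then 1 else 0) =
      FF (sgn9 σ) t.1.1 t.1.2.1 t.1.2.2 := by
  have e1 : sgn9 σ t.1.1 t.1.2.1 = sgn9 σ t.ij.1.1 t.ij.1.2 := rfl
  have e2 : sgn9 σ t.1.1 t.1.2.2 = sgn9 σ t.ik.1.1 t.ik.1.2 := rfl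
  have e3 : sgn9 σ t.1.2.1 t.1.2.2 = sgn9 σ t.jk.1.1 t.jk.1.2 := rfl
  unfold FF neg3
  rw [e1, e2, e3]
  rw [Fin.sum_univ_four]
  simp only [lin_apply, hZ, ca, cb, cc]
  rcases sgn9_cases σ hσ t.ij with ⟨h1, g1⟩ | ⟨h1, g1⟩ <;>
    rcases sgn9_cases σ hσ t.ik with ⟨h2, g2⟩ | ⟨h2, g2⟩ <;>
    rcases sgn9_cases σ hσ t.jk with ⟨h3, g3⟩ | ⟨h3, g3⟩ <;>
    rw [g1, g2, g3, h1, h2, h3] <;> norm_num

theorem cnt_eq_card (v : Pair 9 → ℝ) (σ : Pair 9 → ℝ) (hσ : ∀ e, Sg (σ e))
    (hZ : ∀ e, cen v e = σ e / 3) : cnt (sgn9 σ) = (tightSet v).card := by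
  classical
  have h1 : (tightSet v).card = ∑ t : Triple 9, ∑ κ : Fin 4,
      (if lin (t, κ) (cen v) = 1 then 1 else 0) := by
    rw [← Fintype.sum_prod_type (f := fun p : Triple 9 × Fin 4 =>
      if lin p (cen v) = 1 then 1 else 0)]
    rw [Finset.card_eq_sum_ones, ← Finset.sum_filter]
    have h0 : tightSet v = Finset.univ.filter fun p => lin p (cen v) = 1 := by
      ext p
      simp [mem_tightSet]
    rw [h0]
  rw [h1]
  rw [Finset.sum_congr rfl fun t _ => triple_count σ hσ (cen v) hZ t]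
  rw [← GG_cnt]
  have h2 : (∑ x ∈ range 9, ∑ y ∈ range 9, ∑ z ∈ range 9, GG (sgn9 σ) x y z) =
      ∑ x : Fin 9, ∑ y : Fin 9, ∑ z : Fin 9, GG (sgn9 σ) x y z := by
    rw [Finset.sum_range]
    refine Finset.sum_congr rfl fun x _ => ?_
    rw [Finset.sum_range]
    refine Finset.sum_congr rfl fun y _ => ?_
    rw [Finset.sum_range]
  rw [h2]
  rw [← Finset.sum_subtype (Finset.univ.filter fun t : Fin 9 × Fin 9 × Fin 9 =>
    t.1 < t.2.1 ∧ t.2.1 < t.2.2) (by simp)
    (fun t => FF (sgn9 σ) t.1 t.2.1 t.2.2)]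
  rw [Finset.sum_filter, Fintype.sum_prod_type]
  refine Finset.sum_congr rfl fun x _ => ?_
  rw [Fintype.sum_prod_type]
  refine Finset.sum_congr rfl fun y _ => ?_
  refine Finset.sum_congr rfl fun z _ => ?_
  unfold GG
  simp only [Fin.lt_def]

theorem card_pair9 : Fintype.card (Pair 9) = 36 := by decide +kernel

/-- Every vertex of the metric polytope on nine points has incidence at least `37`. -/
theorem main9 (v : Pair 9 → ℝ) (hv : v ∈ (metricPolytope 9).extremePoints ℝ) :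
    37 ≤ incidence v := by
  have hle := card_le v hv
  rw [card_pair9] at hle
  by_contra hlt
  have hc : incidence v = 36 := by omega
  have hc' : incidence v = Fintype.card (Pair 9) := by rw [hc, card_pair9]
  obtain ⟨σ, hσ, hZ⟩ := simple_third (by norm_num) v hv hc'
  have hcnt : cnt (sgn9 σ) = 36 := by
    rw [cnt_eq_card v σ hσ hZ, ← incidence_eq, hc]
  obtain ⟨y, hsymm, ⟨j0, hj0, i0, hi0, hij0, hne⟩, hker⟩ := nine (sgn9 σ) (sgn9_sym σ) hcnt
  have hzero : (fun e : Pair 9 => σ e * (y e.1.1 e.1.2 : ℝ)) = 0 := by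
    apply vertex_inj v hv
    intro p hp
    obtain ⟨t, κ⟩ := p
    have hsum : neg3 (sgn9 σ) t.1.1 t.1.2.1 t.1.2.2 = false →
        (y t.ij.1.1 t.ij.1.2 : ℝ) + y t.ik.1.1 t.ik.1.2 + y t.jk.1.1 t.jk.1.2 = 0 := by
      intro hneg
      have h1 : (t.1.1 : ℕ) ≠ t.1.2.1 := fun h => absurd (Fin.lt_def.mp t.2.1) (by omega)
      have h2 : (t.1.2.1 : ℕ) ≠ t.1.2.2 := fun h => absurd (Fin.lt_def.mp t.2.2) (by omega)
      have h3 : (t.1.1 : ℕ) ≠ t.1.2.2 := by
        have a := Fin.lt_def.mp t.2.1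
        have b := Fin.lt_def.mp t.2.2
        omega
      have h4 := hker _ t.1.1.2 _ t.1.2.1.2 _ t.1.2.2.2 h1 h3 h2 hneg
      exact_mod_cast h4
    have e1 : sgn9 σ t.1.1 t.1.2.1 = sgn9 σ t.ij.1.1 t.ij.1.2 := rfl
    have e2 : sgn9 σ t.1.1 t.1.2.2 = sgn9 σ t.ik.1.1 t.ik.1.2 := rfl
    have e3 : sgn9 σ t.1.2.1 t.1.2.2 = sgn9 σ t.jk.1.1 t.jk.1.2 := rfl
    unfold neg3 at hsum
    rw [e1, e2, e3] at hsum
    rw [lin_apply] at hp ⊢
    simp only [hZ] at hp
    rcases sgn9_cases σ hσ t.ij with ⟨h1, g1⟩ | ⟨h1, g1⟩ <;>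
      rcases sgn9_cases σ hσ t.ik with ⟨h2, g2⟩ | ⟨h2, g2⟩ <;>
      rcases sgn9_cases σ hσ t.jk with ⟨h3, g3⟩ | ⟨h3, g3⟩ <;>
      rw [g1, g2, g3] at hsum <;> rw [h1, h2, h3] at hp <;> rw [h1, h2, h3] <;>
      fin_cases κ <;> simp only [ca, cb, cc] at hp ⊢ <;>
      first
      | (exfalso; norm_num at hp; done)
      | (have h5 := hsum rfl
         linarith)
  -- the vector is not zero
  rcases lt_or_gt_of_ne hij0 with h | h
  · have h1 := congrFun hzero ⟨(⟨i0, hi0⟩, ⟨j0, hj0⟩), h⟩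
    simp only [Pi.zero_apply, mul_eq_zero] at h1
    rcases h1 with h1 | h1
    · rcases hσ ⟨(⟨i0, hi0⟩, ⟨j0, hj0⟩), h⟩ with h2 | h2 <;> rw [h2] at h1 <;> norm_num at h1
    · exact hne (by exact_mod_cast h1)
  · have h1 := congrFun hzero ⟨(⟨j0, hj0⟩, ⟨i0, hi0⟩), h⟩
    simp only [Pi.zero_apply, mul_eq_zero] at h1
    rcases h1 with h1 | h1
    · rcases hσ ⟨(⟨j0, hj0⟩, ⟨i0, hi0⟩), h⟩ with h2 | h2 <;> rw [h2] at h1 <;> norm_num at h1
    · exact hne (by rw [hsymm]; exact_mod_cast h1)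

end Pool.Agent.Helper82_Met
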